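import Mathlib

/-!
Signed sums of separated terms `2 ^ i * 3 ^ j` determine their terms.
-/

set_option autoImplicit false

namespace Pool.Agent.R202.LC

/-- the signed term -/
def val (t : Bool × ℕ × ℕ) : ℤ := (if t.1 then 1 else -1) * (2 ^ t.2.1 * 3 ^ t.2.2)

/-- separated finite sets of signed terms -/
def Sep (g N : ℕ) (F : Finset (Bool × ℕ × ℕ)) : Prop :=
  (∀ t ∈ F, ∀ s ∈ F, t ≠ s → t.2.1 + g ≤ s.2.1 ∨ s.2.1 + g ≤ t.2.1) ∧ ∀ t ∈ F, t.2.2 < N

lemma val_two (d : ℕ) (hd : d ≠ 0) (g : ℕ) (h : (2 : ℕ) ^ (g + 3) ∣ 3 ^ d - 1) : 2 ^ (g + 1) ∣ d := by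
  have h8 : (8 : ℕ) ∣ 3 ^ d - 1 := dvd_trans (by
    rw [pow_add]; exact Dvd.intro_left (2 ^ g) rfl) h
  have heven : Even d := by
    rw [← Nat.not_odd_iff_even]
    rintro ⟨e, rfl⟩
    have h1 : 3 ^ (2 * e + 1) % 8 = 3 := by
      rw [pow_succ, pow_mul, Nat.mul_mod, Nat.pow_mod]
      norm_num
    have h3 : 1 ≤ 3 ^ (2 * e + 1) := Nat.one_le_pow _ _ (by norm_num)
    generalize 3 ^ (2 * e + 1) = z at h1 h3 h8
    omega
  have h2 := padicValNat.pow_two_sub_pow (x := 3) (y := 1) (by norm_num) (by norm_num) (by norm_num) hd heven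
  rw [one_pow] at h2
  have h3 : 3 ^ d - 1 ≠ 0 := by
    have : 3 ^ 1 ≤ 3 ^ d := Nat.pow_le_pow_right (by norm_num) (Nat.one_le_iff_ne_zero.2 hd)
    omega
  have h4 : g + 3 ≤ padicValNat 2 (3 ^ d - 1) := (padicValNat_dvd_iff_le h3).1 h
  have h5 : padicValNat 2 (3 + 1) = 2 := by
    rw [show (3 + 1 : ℕ) = 2 ^ 2 by norm_num, padicValNat.prime_pow]
  have h6 : padicValNat 2 (3 - 1) = 1 := by
    norm_num
  rw [h5, h6] at h2
  exact (padicValNat_dvd_iff_le hd).2 (by omega)

/-- the terms are determined modulo a power of two -/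
lemma term_unique {g N : ℕ} (hN : N ≤ 2 ^ g) {b b' : Bool} {j j' : ℕ} (hj : j < N) (hj' : j' < N)
    (h : (2 : ℤ) ^ (g + 3) ∣ (if b then 1 else -1) * 3 ^ j - (if b' then 1 else -1) * 3 ^ j') :
    b = b' ∧ j = j' := by
  have h8 : (8 : ℤ) ∣ (if b then 1 else -1) * 3 ^ j - (if b' then 1 else -1) * 3 ^ j' :=
    dvd_trans (by rw [pow_add]; exact Dvd.intro_left (2 ^ g) rfl) h
  have hm : ∀ n : ℕ, (3 : ℤ) ^ n % 8 = 1 ∨ (3 : ℤ) ^ n % 8 = 3 := by
    intro n
    induction n with
    | zero => left; norm_num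
    | succ n ih =>
      rw [pow_succ]
      rcases ih with h | h <;> omega
  have hb : b = b' := by
    rcases hm j with h1 | h1 <;> rcases hm j' with h2 | h2 <;> cases b <;> cases b' <;>
      simp only [if_true, if_false, Bool.false_eq_true, one_mul, neg_mul] at h8 ⊢ <;> omega
  refine ⟨hb, ?_⟩
  subst hb
  -- the general case by symmetry
  have key : ∀ m n : ℕ, m < n → n < N → (2 : ℤ) ^ (g + 3) ∣ 3 ^ n - 3 ^ m → False := by
    intro m n hmn hn hd
    obtain ⟨d, rfl⟩ := Nat.exists_eq_add_of_lt hmn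
    have e1 : (3 : ℤ) ^ (m + d + 1) - 3 ^ m = 3 ^ m * (3 ^ (d + 1) - 1) := by ring
    rw [e1] at hd
    have hc : IsCoprime ((2 : ℤ) ^ (g + 3)) (3 ^ m) := IsCoprime.pow (by norm_num)
    have hd2 := hc.dvd_of_dvd_mul_left hd
    have hd3 : (2 : ℕ) ^ (g + 3) ∣ 3 ^ (d + 1) - 1 := by
      have h1 : 1 ≤ 3 ^ (d + 1) := Nat.one_le_pow _ _ (by norm_num)
      have : ((2 ^ (g + 3) : ℕ) : ℤ) ∣ ((3 ^ (d + 1) - 1 : ℕ) : ℤ) := by
        rw [Nat.cast_sub h1]
        push_cast
        exact hd2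
      exact_mod_cast this
    have h4 := Nat.le_of_dvd (by omega) (val_two (d + 1) (by omega) g hd3)
    have h5 : 2 ^ g ≤ 2 ^ (g + 1) := Nat.pow_le_pow_right (by norm_num) (by omega)
    omega
  have h' : (2 : ℤ) ^ (g + 3) ∣ 3 ^ j - 3 ^ j' := by
    cases b
    · simp only [if_false, Bool.false_eq_true] at h
      have e : (-1 : ℤ) * 3 ^ j - -1 * 3 ^ j' = -(3 ^ j - 3 ^ j') := by ring
      rw [e] at h
      exact (dvd_neg).1 h
    · simpa only [if_true, one_mul] using h
  rcases lt_trichotomy j j' with h1 | h1 | h1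
  · exfalso
    exact key j j' h1 hj' (by
      have := (dvd_neg).2 h'
      rwa [neg_sub] at this)
  · exact h1
  · exact (key j' j h1 hj h').elim

lemma sum_dvd {F : Finset (Bool × ℕ × ℕ)} {c : ℕ} (h : ∀ t ∈ F, c ≤ t.2.1) :
    (2 : ℤ) ^ c ∣ ∑ t ∈ F, val t := by
  refine Finset.dvd_sum fun t ht => ?_
  unfold val
  exact Dvd.dvd.mul_left (Dvd.dvd.mul_right (pow_dvd_pow 2 (h t ht)) _) _

/-- separated sets with the same sum are equal -/
theorem sum_inj {g N : ℕ} (hN : N ≤ 2 ^ g) : ∀ (m : ℕ) (F G : Finset (Bool × ℕ × ℕ)),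
    F.card + G.card ≤ m → Sep (g + 3) N F → Sep (g + 3) N G → ∑ t ∈ F, val t = ∑ t ∈ G, val t →
    F = G := by
  classical
  intro m
  induction m with
  | zero =>
    intro F G hc _ _ _
    have h1 : F.card = 0 := by omega
    have h2 : G.card = 0 := by omega
    rw [Finset.card_eq_zero] at h1 h2
    rw [h1, h2]
  | succ m ih =>
    intro F G hc hF hG he
    -- decomposition of a nonempty separated set
    have dec : ∀ H : Finset (Bool × ℕ × ℕ), Sep (g + 3) N H → H.Nonempty → ∃ t ∈ H,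
        (∀ s ∈ H, t.2.1 ≤ s.2.1) ∧ (∀ s ∈ H.erase t, t.2.1 + (g + 3) ≤ s.2.1) ∧
        ∃ w : ℤ, ∑ s ∈ H, val s =
          2 ^ t.2.1 * ((if t.1 then 1 else -1) * 3 ^ t.2.2 + 2 ^ (g + 3) * w) := by
      intro H hH hne
      obtain ⟨t, ht, hmin⟩ := H.exists_min_image (fun s => s.2.1) hne
      have hgap : ∀ s ∈ H.erase t, t.2.1 + (g + 3) ≤ s.2.1 := by
        intro s hs
        rw [Finset.mem_erase] at hs
        rcases hH.1 t ht s hs.2 (Ne.symm hs.1) with h | h
        · exact h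
        · have := hmin s hs.2
          omega
      refine ⟨t, ht, hmin, hgap, ?_⟩
      obtain ⟨w, hw⟩ := sum_dvd hgap
      refine ⟨w, ?_⟩
      rw [← Finset.add_sum_erase H _ ht, hw]
      unfold val
      rw [pow_add]
      ring
    have odd3 : ∀ (b : Bool) (j : ℕ) (w : ℤ),
        ¬ (2 : ℤ) ∣ ((if b then 1 else -1) * 3 ^ j + 2 ^ (g + 3) * w) := by
      intro b j w h
      have h1 : (2 : ℤ) ∣ 2 ^ (g + 3) * w := Dvd.dvd.mul_right (dvd_pow_self 2 (by omega)) _
      have h2 : (2 : ℤ) ∣ (if b then 1 else -1) * 3 ^ j := by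
        have := dvd_sub h h1
        rwa [add_sub_cancel_right] at this
      have h3 : (2 : ℤ) ∣ 3 ^ j := by
        cases b
        · simp only [if_false, Bool.false_eq_true] at h2
          rw [neg_one_mul] at h2
          exact (dvd_neg).1 h2
        · simpa only [if_true, one_mul] using h2
      have h4 : (2 : ℤ) ∣ 3 := Int.prime_two.dvd_of_dvd_pow h3
      norm_num at h4
    have nz : ∀ H : Finset (Bool × ℕ × ℕ), Sep (g + 3) N H → H.Nonempty → ∑ s ∈ H, val s ≠ 0 := by
      intro H hH hne h0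
      obtain ⟨t, ht, _, _, w, hw⟩ := dec H hH hne
      rw [h0] at hw
      rcases mul_eq_zero.1 hw.symm with h | h
      · exact absurd h (by positivity)
      · exact odd3 _ _ _ (h ▸ dvd_zero 2)
    rcases F.eq_empty_or_nonempty with hF0 | hF0
    · rcases G.eq_empty_or_nonempty with hG0 | hG0
      · rw [hF0, hG0]
      · exfalso
        rw [hF0, Finset.sum_empty] at he
        exact nz G hG hG0 he.symm
    · rcases G.eq_empty_or_nonempty with hG0 | hG0
      · exfalso
        rw [hG0, Finset.sum_empty] at he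
        exact nz F hF hF0 he
      · obtain ⟨t, ht, htm, htg, w, hw⟩ := dec F hF hF0
        obtain ⟨s, hs, hsm, hsg, v, hv⟩ := dec G hG hG0
        have hi : t.2.1 = s.2.1 := by
          rcases lt_trichotomy t.2.1 s.2.1 with h | h | h
          · exfalso
            obtain ⟨d, hd⟩ := Nat.exists_eq_add_of_lt h
            have e5 : (2 : ℤ) ^ (t.2.1 + d + 1) = 2 ^ t.2.1 * (2 * 2 ^ d) := by ring
            rw [hw, hv, hd, e5, mul_assoc (2 ^ t.2.1 : ℤ)] at he
            have h2 := mul_left_cancel₀ (pow_ne_zero _ (by norm_num : (2 : ℤ) ≠ 0)) he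
            refine odd3 t.1 t.2.2 w ?_
            rw [h2]
            exact Dvd.dvd.mul_right (Dvd.intro _ rfl) _
          · exact h
          · exfalso
            obtain ⟨d, hd⟩ := Nat.exists_eq_add_of_lt h
            have e5 : (2 : ℤ) ^ (s.2.1 + d + 1) = 2 ^ s.2.1 * (2 * 2 ^ d) := by ring
            rw [hw, hv, hd, e5, mul_assoc (2 ^ s.2.1 : ℤ)] at he
            have h2 := mul_left_cancel₀ (pow_ne_zero _ (by norm_num : (2 : ℤ) ≠ 0)) he
            refine odd3 s.1 s.2.2 v ?_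
            rw [← h2]
            exact Dvd.dvd.mul_right (Dvd.intro _ rfl) _
        rw [hw, hv, hi] at he
        have h2 := mul_left_cancel₀ (pow_ne_zero _ (by norm_num : (2 : ℤ) ≠ 0)) he
        have h3 : (2 : ℤ) ^ (g + 3) ∣ (if t.1 then 1 else -1) * 3 ^ t.2.2 -
            (if s.1 then 1 else -1) * 3 ^ s.2.2 := ⟨v - w, by linear_combination h2⟩
        obtain ⟨h4, h5⟩ := term_unique hN (hF.2 t ht) (hG.2 s hs) h3
        have hts : t = s := by
          ext
          · rw [h4]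
          · exact hi
          · exact h5
        subst hts
        have hsub : ∀ H : Finset (Bool × ℕ × ℕ), Sep (g + 3) N H → Sep (g + 3) N (H.erase t) := by
          intro H hH
          exact ⟨fun a ha b hb hab => hH.1 a (Finset.mem_of_mem_erase ha) b (Finset.mem_of_mem_erase hb) hab,
            fun a ha => hH.2 a (Finset.mem_of_mem_erase ha)⟩
        have he2 : ∑ a ∈ F.erase t, val a = ∑ a ∈ G.erase t, val a := by
          have e1 := Finset.add_sum_erase F val ht
          have e2 := Finset.add_sum_erase G val hs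
          have e3 : ∑ a ∈ F, val a = ∑ a ∈ G, val a := by rw [hw, hv, hi, he]
          linarith
        have hcard : (F.erase t).card + (G.erase t).card ≤ m := by
          rw [Finset.card_erase_of_mem ht, Finset.card_erase_of_mem hs]
          have := Finset.card_pos.2 hF0
          have := Finset.card_pos.2 hG0
          omega
        have hfin := ih _ _ hcard (hsub F hF) (hsub G hG) he2
        rw [← Finset.insert_erase ht, ← Finset.insert_erase hs, hfin]

/-- nonempty separated sets have a nonzero sum -/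
theorem sum_ne {g N : ℕ} (hN : N ≤ 2 ^ g) {F : Finset (Bool × ℕ × ℕ)} (hF : Sep (g + 3) N F)
    (hne : F.Nonempty) : ∑ t ∈ F, val t ≠ 0 := by
  intro h
  have := sum_inj hN _ F ∅ le_rfl hF ⟨by simp, by simp⟩ (by rw [h, Finset.sum_empty])
  rw [this] at hne
  exact Finset.not_nonempty_empty hne

end Pool.Agent.R202.LC
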