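import Pool.Agent.R202.LCa

/-!
Counting the values of signed sums over large sets of tuples.
-/

set_option autoImplicit false

open Filter Topology

namespace Pool.Agent.R202.LC

variable {ι : Type*} [Fintype ι] [DecidableEq ι]

/-- the signed sum of the tuple -/
def nn (e : ι → Bool) (z : ι → ℕ × ℕ) : ℤ := ∑ l, val (e l, z l)

def Good (g : ℕ) (z : ι → ℕ × ℕ) : Prop :=
  ∀ l l' : ι, l ≠ l' → (z l).1 + g ≤ (z l').1 ∨ (z l').1 + g ≤ (z l).1

def box (N : ℕ) : Finset (ℕ × ℕ) := Finset.range N ×ˢ Finset.range N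

open Classical in
lemma pair_count (g N : ℕ) {l l' : ι} (hl : l ≠ l') :
    ((Fintype.piFinset fun _ : ι => box N).filter fun z =>
      ¬ ((z l).1 + g ≤ (z l').1 ∨ (z l').1 + g ≤ (z l).1)).card ≤
      (2 * g * N) * (N * N) ^ (Fintype.card ι - 1) := by
  have hcard : (Fintype.piFinset (Function.update (fun _ : ι => box N) l'
      (Finset.range (2 * g) ×ˢ Finset.range N))).card = (2 * g * N) * (N * N) ^ (Fintype.card ι - 1) := by
    rw [Fintype.card_piFinset]
    have h1 : ∀ i : ι, (Function.update (fun _ : ι => box N) l'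
        (Finset.range (2 * g) ×ˢ Finset.range N) i).card =
        Function.update (fun _ : ι => N * N) l' (2 * g * N) i := by
      intro i
      by_cases hi : i = l'
      · subst hi
        rw [Function.update_self, Function.update_self, Finset.card_product, Finset.card_range,
          Finset.card_range]
      · rw [Function.update_of_ne hi, Function.update_of_ne hi]
        unfold box
        rw [Finset.card_product, Finset.card_range]
    rw [Finset.prod_congr rfl fun i _ => h1 i, Finset.prod_update_of_mem (Finset.mem_univ l')]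
    rw [Finset.prod_const, Finset.card_sdiff_of_subset (by simp), Finset.card_univ, Finset.card_singleton]
  rw [← hcard]
  refine Finset.card_le_card_of_injOn
    (fun z => Function.update z l' ((z l').1 + g - (z l).1, (z l').2)) ?_ ?_
  · intro z hz
    rw [Finset.mem_coe, Finset.mem_filter, Fintype.mem_piFinset] at hz
    rw [Finset.mem_coe, Fintype.mem_piFinset]
    intro i
    by_cases hi : i = l'
    · subst hi
      simp only [Function.update_self]
      have h1 := hz.1 i
      unfold box at h1
      rw [Finset.mem_product, Finset.mem_range, Finset.mem_range] at h1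
      rw [Finset.mem_product, Finset.mem_range, Finset.mem_range]
      refine ⟨?_, h1.2⟩
      have h2 := hz.2
      push Not at h2
      show (z i).1 + g - (z l).1 < 2 * g
      omega
    · simp only [Function.update_of_ne hi]
      exact hz.1 i
  · intro z hz w hw hzw
    rw [Finset.mem_coe, Finset.mem_filter, Fintype.mem_piFinset] at hz hw
    funext i
    have hne : ∀ i, i ≠ l' → z i = w i := by
      intro i hi
      have := congrFun hzw i
      simpa only [Function.update_of_ne hi] using this
    by_cases hi : i = l'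
    · subst hi
      have h1 := congrFun hzw i
      simp only [Function.update_self, Prod.mk.injEq] at h1
      have h2 := hne l hl
      have h3 := hz.2
      have h4 := hw.2
      push Not at h3 h4
      rw [h2] at h1 h3
      ext
      · omega
      · exact h1.2
    · exact hne i hi

open Classical in
lemma bad_count (g N : ℕ) :
    ((Fintype.piFinset fun _ : ι => box N).filter fun z => ¬ Good g z).card ≤
      Fintype.card ι ^ 2 * ((2 * g * N) * (N * N) ^ (Fintype.card ι - 1)) := by
  have hsub : ((Fintype.piFinset fun _ : ι => box N).filter fun z => ¬ Good g z) ⊆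
      ((Finset.univ : Finset (ι × ι)).filter fun u => u.1 ≠ u.2).biUnion fun u =>
        (Fintype.piFinset fun _ : ι => box N).filter fun z =>
          ¬ ((z u.1).1 + g ≤ (z u.2).1 ∨ (z u.2).1 + g ≤ (z u.1).1) := by
    intro z hz
    rw [Finset.mem_filter] at hz
    obtain ⟨h1, h2⟩ := hz
    unfold Good at h2
    push Not at h2
    obtain ⟨l, l', hll, h3⟩ := h2
    rw [Finset.mem_biUnion]
    refine ⟨(l, l'), by simp [hll], ?_⟩
    rw [Finset.mem_filter]
    refine ⟨h1, ?_⟩
    push Not
    exact h3
  refine (Finset.card_le_card hsub).trans (Finset.card_biUnion_le.trans ?_)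
  refine (Finset.sum_le_card_nsmul _ _ ((2 * g * N) * (N * N) ^ (Fintype.card ι - 1)) ?_).trans ?_
  · intro u hu
    rw [Finset.mem_filter] at hu
    exact pair_count g N hu.2
  · rw [smul_eq_mul]
    refine Nat.mul_le_mul_right _ ?_
    refine (Finset.card_filter_le _ _).trans ?_
    rw [Finset.card_univ, Fintype.card_prod, sq]

/-- the set of the signed terms of a tuple -/
def terms (e : ι → Bool) (z : ι → ℕ × ℕ) : Finset (Bool × ℕ × ℕ) :=
  Finset.univ.image fun l => (e l, z l)

omit [Fintype ι] in
lemma terms_inj {g : ℕ} (hg : 0 < g) (e : ι → Bool) {z : ι → ℕ × ℕ} (hz : Good g z) :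
    Function.Injective fun l => (e l, z l) := by
  intro l l' h
  by_contra hne
  simp only [Prod.mk.injEq] at h
  rcases hz l l' hne with h1 | h1 <;> rw [h.2] at h1 <;> omega

lemma terms_sum {g : ℕ} (hg : 0 < g) (e : ι → Bool) {z : ι → ℕ × ℕ} (hz : Good g z) :
    ∑ t ∈ terms e z, val t = nn e z := by
  unfold terms nn
  rw [Finset.sum_image (fun a _ b _ h => terms_inj hg e hz h)]

omit [DecidableEq ι] in
lemma terms_sep {g N : ℕ} (e : ι → Bool) {z : ι → ℕ × ℕ} (hz : Good g z)
    (hN : ∀ l, z l ∈ box N) : Sep g N (terms e z) := by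
  unfold terms
  refine ⟨?_, ?_⟩
  · intro t ht s hs hts
    rw [Finset.mem_image] at ht hs
    obtain ⟨l, _, rfl⟩ := ht
    obtain ⟨l', _, rfl⟩ := hs
    exact hz l l' (fun h => hts (by rw [h]))
  · intro t ht
    rw [Finset.mem_image] at ht
    obtain ⟨l, _, rfl⟩ := ht
    have := hN l
    unfold box at this
    rw [Finset.mem_product, Finset.mem_range, Finset.mem_range] at this
    exact this.2

open Classical in
/-- the fibres of the value map are bounded on the good tuples -/
lemma fibre {g N : ℕ} (hN : N ≤ 2 ^ g) (e : ι → Bool) (Z : Finset (ι → ℕ × ℕ))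
    (hZ : ∀ z ∈ Z, Good (g + 3) z ∧ ∀ l, z l ∈ box N) :
    Z.card ≤ Fintype.card ι ^ Fintype.card ι * (Z.image (nn e)).card := by
  refine Finset.card_le_mul_card_image Z _ ?_
  intro n hn
  rw [Finset.mem_image] at hn
  obtain ⟨z0, hz0, rfl⟩ := hn
  have hsub : (Z.filter fun z => nn e z = nn e z0) ⊆
      Fintype.piFinset fun _ : ι => (terms e z0).image Prod.snd := by
    intro z hz
    rw [Finset.mem_filter] at hz
    rw [Fintype.mem_piFinset]
    intro l
    have h1 : terms e z = terms e z0 := by
      refine sum_inj hN _ _ _ le_rfl (terms_sep e (hZ z hz.1).1 (hZ z hz.1).2)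
        (terms_sep e (hZ z0 hz0).1 (hZ z0 hz0).2) ?_
      rw [terms_sum (by omega) e (hZ z hz.1).1, terms_sum (by omega) e (hZ z0 hz0).1, hz.2]
    rw [← h1, Finset.mem_image]
    exact ⟨(e l, z l), Finset.mem_image.2 ⟨l, Finset.mem_univ _, rfl⟩, rfl⟩
  refine (Finset.card_le_card hsub).trans ?_
  rw [Fintype.card_piFinset, Finset.prod_const, Finset.card_univ]
  refine Nat.pow_le_pow_left ?_ _
  refine Finset.card_image_le.trans ?_
  unfold terms
  refine Finset.card_image_le.trans ?_
  rw [Finset.card_univ]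

/-- the error term is small -/
lemma small (C β : ℝ) (hβ : 0 < β) : ∀ᶠ N : ℕ in atTop, C * ((Nat.log 2 N : ℝ) + 4) ≤ β * N := by
  have h1 : Tendsto (fun N : ℕ => Real.log N / N) atTop (𝓝 0) := by
    have := Real.isLittleO_log_id_atTop.tendsto_div_nhds_zero
    exact this.comp tendsto_natCast_atTop_atTop
  have h2 : Tendsto (fun N : ℕ => |C| * (Real.log N / N / Real.log 2) + 4 * |C| / (N : ℝ)) atTop
      (𝓝 (|C| * (0 / Real.log 2) + 0)) := by
    refine ((h1.div_const _).const_mul _).add ?_
    exact tendsto_const_div_atTop_nhds_zero_nat _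
  rw [zero_div, mul_zero, add_zero] at h2
  filter_upwards [h2.eventually_lt_const hβ, eventually_gt_atTop 0] with N h3 h4
  have hN : (0 : ℝ) < N := by exact_mod_cast h4
  have hl2 : 0 < Real.log 2 := Real.log_pos (by norm_num)
  have h5 : (Nat.log 2 N : ℝ) ≤ Real.log N / Real.log 2 := by
    rw [le_div_iff₀ hl2, ← Real.log_pow]
    refine Real.log_le_log (by positivity) ?_
    exact_mod_cast Nat.pow_log_le_self 2 (by omega)
  have h6 : C * ((Nat.log 2 N : ℝ) + 4) ≤ |C| * (Real.log N / Real.log 2 + 4) := by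
    refine (mul_le_mul_of_nonneg_right (le_abs_self C) (by positivity)).trans ?_
    exact mul_le_mul_of_nonneg_left (by linarith) (abs_nonneg C)
  refine h6.trans ?_
  have h7 : |C| * (Real.log N / Real.log 2 + 4) =
      (|C| * (Real.log N / N / Real.log 2) + 4 * |C| / (N : ℝ)) * N := by
    field_simp
  rw [h7]
  exact (mul_le_mul_of_nonneg_right h3.le hN.le)

open Classical in
/-- a set of tuples of positive proportion has many nonzero values -/
theorem many [Nonempty ι] (e : ι → Bool) (β : ℝ) (hβ : 0 < β) : ∀ᶠ N : ℕ in atTop,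
    ∀ Z ⊆ Fintype.piFinset fun _ : ι => box N, β * (N : ℝ) ^ (2 * Fintype.card ι) ≤ Z.card →
      ∃ I : Finset ℤ, (∀ n ∈ I, n ≠ 0 ∧ ∃ z ∈ Z, nn e z = n) ∧
        β / (2 * (Fintype.card ι : ℝ) ^ Fintype.card ι) * (N : ℝ) ^ (2 * Fintype.card ι) ≤ I.card := by
  set m := Fintype.card ι with hm
  have hm1 : 1 ≤ m := Fintype.card_pos
  filter_upwards [small (2 * (m : ℝ) ^ 2 * 2) (β) hβ, eventually_gt_atTop 0] with N hN hN0 Z hZ hc
  set g := Nat.log 2 N + 1 with hg
  have hNg : N ≤ 2 ^ g := (Nat.lt_pow_succ_log_self (by norm_num) N).le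
  set Z' := Z.filter fun z => Good (g + 3) z with hZ'
  have hbad : (Z.filter fun z => ¬ Good (g + 3) z).card ≤
      m ^ 2 * ((2 * (g + 3) * N) * (N * N) ^ (m - 1)) := by
    refine (Finset.card_le_card (Finset.filter_subset_filter _ hZ)).trans ?_
    exact bad_count (g + 3) N
  have hsplit : Z'.card + (Z.filter fun z => ¬ Good (g + 3) z).card = Z.card :=
    Finset.card_filter_add_card_filter_not _
  have hNpos : (0 : ℝ) < N := by exact_mod_cast hN0
  have hbadR : ((Z.filter fun z => ¬ Good (g + 3) z).card : ℝ) ≤ β / 2 * (N : ℝ) ^ (2 * m) := by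
    have h1 : ((Z.filter fun z => ¬ Good (g + 3) z).card : ℝ) ≤
        (m : ℝ) ^ 2 * ((2 * ((Nat.log 2 N : ℝ) + 4) * N) * ((N : ℝ) * N) ^ (m - 1)) := by
      have := (Nat.cast_le (α := ℝ)).2 hbad
      refine this.trans (le_of_eq ?_)
      rw [hg]
      push_cast
      ring
    refine h1.trans ?_
    have h2 : (N : ℝ) ^ (2 * m) = N * (N * ((N : ℝ) * N) ^ (m - 1)) := by
      obtain ⟨m', hm'⟩ : ∃ m', m = m' + 1 := ⟨m - 1, by omega⟩
      rw [hm', Nat.add_sub_cancel]
      ring
    rw [h2]
    have h3 : 0 ≤ (N : ℝ) * ((N : ℝ) * N) ^ (m - 1) := by positivity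
    nlinarith [mul_le_mul_of_nonneg_right hN h3]
  have hZc : β / 2 * (N : ℝ) ^ (2 * m) ≤ Z'.card := by
    have : (Z'.card : ℝ) + (Z.filter fun z => ¬ Good (g + 3) z).card = Z.card := by
      exact_mod_cast hsplit
    linarith
  have hZ'2 : ∀ z ∈ Z', Good (g + 3) z ∧ ∀ l, z l ∈ box N := by
    intro z hz
    rw [hZ', Finset.mem_filter] at hz
    exact ⟨hz.2, fun l => Fintype.mem_piFinset.1 (hZ hz.1) l⟩
  have hf := fibre hNg e Z' hZ'2
  refine ⟨Z'.image (nn e), ?_, ?_⟩
  · intro n hn
    rw [Finset.mem_image] at hn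
    obtain ⟨z, hz, rfl⟩ := hn
    refine ⟨?_, z, Finset.mem_of_mem_filter z hz, rfl⟩
    rw [← terms_sum (g := g + 3) (by omega) e (hZ'2 z hz).1]
    refine sum_ne hNg (terms_sep e (hZ'2 z hz).1 (hZ'2 z hz).2) ?_
    unfold terms
    exact Finset.image_nonempty.2 Finset.univ_nonempty
  · have hmm : (0 : ℝ) < (m : ℝ) ^ m := by
      have : (0 : ℝ) < m := by exact_mod_cast hm1
      positivity
    have h1 : (Z'.card : ℝ) ≤ (m : ℝ) ^ m * (Z'.image (nn e)).card := by exact_mod_cast hf
    rw [div_mul_eq_mul_div, div_le_iff₀ (by positivity)]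
    nlinarith

omit [DecidableEq ι] in
/-- size of the values -/
lemma nn_le (e : ι → Bool) {N : ℕ} {z : ι → ℕ × ℕ} (hz : ∀ l, z l ∈ box N) :
    |nn e z| ≤ Fintype.card ι * 6 ^ N := by
  unfold nn
  refine (Finset.abs_sum_le_sum_abs _ _).trans ?_
  refine (Finset.sum_le_card_nsmul _ _ ((6 : ℤ) ^ N) ?_).trans ?_
  · intro l _
    have h1 := hz l
    unfold box at h1
    rw [Finset.mem_product, Finset.mem_range, Finset.mem_range] at h1
    have h2 : |val (e l, z l)| = 2 ^ (z l).1 * 3 ^ (z l).2 := by
      unfold val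
      rw [abs_mul]
      have : |(if (e l, z l).1 = true then (1 : ℤ) else -1)| = 1 := by
        split_ifs <;> simp
      rw [this, one_mul, abs_of_nonneg (by positivity)]
    rw [h2, show (6 : ℤ) = 2 * 3 by norm_num, mul_pow]
    exact mul_le_mul (pow_le_pow_right₀ (by norm_num) h1.1.le)
      (pow_le_pow_right₀ (by norm_num) h1.2.le) (by positivity) (by positivity)
  · rw [nsmul_eq_mul, Finset.card_univ]

end Pool.Agent.R202.LC
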