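import Pool.Agent.R202.LCb

/-!
The moment inequality for the Fourier coefficients of a measure invariant under `x ↦ 2 x`, `x ↦ 3 x`.
-/

set_option autoImplicit false

open MeasureTheory Filter Topology Set

namespace Pool.Agent.R202.LC

lemma norm_fourier (n : ℤ) (x : UnitAddCircle) : ‖(fourier n x : ℂ)‖ = 1 := by
  rw [fourier_apply]
  exact Circle.norm_coe _

lemma fourier_nsmul (n : ℤ) (s : ℕ) (x : UnitAddCircle) :
    (fourier n (s • x) : ℂ) = fourier (n * s) x := by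
  rw [fourier_apply, fourier_apply, mul_smul, natCast_zsmul]

lemma coeff_le (μ : Measure UnitAddCircle) [IsProbabilityMeasure μ] (n : ℤ) :
    ‖∫ x, (fourier n x : ℂ) ∂μ‖ ≤ 1 := by
  refine (norm_integral_le_integral_norm _).trans ?_
  simp_rw [norm_fourier]
  simp

lemma coeff_mul {μ : Measure UnitAddCircle} {p : ℕ}
    (hp : MeasurePreserving (fun x : UnitAddCircle => p • x) μ μ) (n : ℤ) :
    ∫ x, (fourier (n * p) x : ℂ) ∂μ = ∫ x, (fourier n x : ℂ) ∂μ := by
  have h1 : ∫ x, (fourier n x : ℂ) ∂(μ.map fun x : UnitAddCircle => p • x) =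
      ∫ x, (fourier n (p • x) : ℂ) ∂μ := by
    refine integral_map hp.aemeasurable ?_
    exact (map_continuous (fourier n)).aestronglyMeasurable
  rw [hp.map_eq] at h1
  rw [h1]
  refine integral_congr_ae (Eventually.of_forall fun x => ?_)
  exact (fourier_nsmul n p x).symm

lemma coeff_pow {μ : Measure UnitAddCircle} {p : ℕ}
    (hp : MeasurePreserving (fun x : UnitAddCircle => p • x) μ μ) (n : ℤ) (i : ℕ) :
    ∫ x, (fourier (n * (p : ℤ) ^ i) x : ℂ) ∂μ = ∫ x, (fourier n x : ℂ) ∂μ := by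
  induction i with
  | zero => simp
  | succ i ih =>
    rw [pow_succ, ← mul_assoc, coeff_mul hp, ih]

lemma coeff_neg (μ : Measure UnitAddCircle) (n : ℤ) :
    ‖∫ x, (fourier (-n) x : ℂ) ∂μ‖ = ‖∫ x, (fourier n x : ℂ) ∂μ‖ := by
  have : ∫ x, (fourier (-n) x : ℂ) ∂μ = (starRingEnd ℂ) (∫ x, (fourier n x : ℂ) ∂μ) := by
    rw [← integral_conj]
    refine integral_congr_ae (Eventually.of_forall fun x => ?_)
    show (fourier (-n) x : ℂ) = (starRingEnd ℂ) (fourier n x : ℂ)
    rw [← fourier_neg]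
  rw [this, Complex.norm_conj]

lemma fourier_sum {ι : Type*} (s : Finset ι) (f : ι → ℤ) (x : UnitAddCircle) :
    (fourier (∑ l ∈ s, f l) x : ℂ) = ∏ l ∈ s, (fourier (f l) x : ℂ) := by
  classical
  induction s using Finset.induction_on with
  | empty => simp
  | insert a s ha ih =>
    rw [Finset.sum_insert ha, Finset.prod_insert ha, fourier_add, ih]

/-- the sign pattern -/
def sg (k : ℕ) : Fin k ⊕ Fin k → Bool := Sum.isLeft

/-- the trigonometric sum over the box -/
noncomputable def trig (a : ℤ) (N : ℕ) (x : UnitAddCircle) : ℂ :=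
  ∑ b ∈ box N, (fourier (a * (2 ^ b.1 * 3 ^ b.2)) x : ℂ)

lemma trig_cont (a : ℤ) (N : ℕ) : Continuous (trig a N) := by
  unfold trig
  exact continuous_finsetSum _ fun b _ => map_continuous (fourier _)

lemma trig_pow (k : ℕ) (a : ℤ) (N : ℕ) (x : UnitAddCircle) :
    ((‖trig a N x‖ ^ (2 * k) : ℝ) : ℂ) =
      ∑ z ∈ Fintype.piFinset (fun _ : Fin k ⊕ Fin k => box N), (fourier (a * nn (sg k) z) x : ℂ) := by
  have h1 : ∀ z : Fin k ⊕ Fin k → ℕ × ℕ, (fourier (a * nn (sg k) z) x : ℂ) =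
      ∏ l, (fourier (a * val (sg k l, z l)) x : ℂ) := by
    intro z
    unfold nn
    rw [Finset.mul_sum, fourier_sum]
  simp_rw [h1]
  rw [← Finset.prod_univ_sum (fun _ : Fin k ⊕ Fin k => box N)
    (fun l b => (fourier (a * val (sg k l, b)) x : ℂ))]
  rw [Fintype.prod_sum_type]
  have h2 : ∀ l : Fin k, ∑ b ∈ box N, (fourier (a * val (sg k (Sum.inl l), b)) x : ℂ) = trig a N x := by
    intro l
    unfold trig val sg
    simp
  have h3 : ∀ l : Fin k, ∑ b ∈ box N, (fourier (a * val (sg k (Sum.inr l), b)) x : ℂ) =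
      (starRingEnd ℂ) (trig a N x) := by
    intro l
    unfold trig val sg
    rw [map_sum]
    refine Finset.sum_congr rfl fun b _ => ?_
    rw [← fourier_neg]
    simp
  rw [Finset.prod_congr rfl fun l _ => h2 l, Finset.prod_congr rfl fun l _ => h3 l,
    Finset.prod_const, Finset.prod_const, Finset.card_univ, Fintype.card_fin, ← mul_pow,
    Complex.mul_conj, Complex.normSq_eq_norm_sq, pow_mul]
  push_cast
  ring

/-- the moment inequality -/
theorem moment {μ : Measure UnitAddCircle} [IsProbabilityMeasure μ]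
    (h2 : MeasurePreserving (fun x : UnitAddCircle => 2 • x) μ μ)
    (h3 : MeasurePreserving (fun x : UnitAddCircle => 3 • x) μ μ) (k : ℕ) (a : ℤ) (N : ℕ) :
    ‖∫ x, (fourier a x : ℂ) ∂μ‖ ^ (2 * k) * (N : ℝ) ^ (4 * k) ≤
      ∑ z ∈ Fintype.piFinset (fun _ : Fin k ⊕ Fin k => box N),
        ‖∫ x, (fourier (a * nn (sg k) z) x : ℂ) ∂μ‖ := by
  have hint : ∀ n : ℤ, Integrable (fun x : UnitAddCircle => (fourier n x : ℂ)) μ := fun n =>
    Integrable.of_bound (map_continuous (fourier n)).aestronglyMeasurable 1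
      (Eventually.of_forall fun x => (norm_fourier n x).le)
  have hmean : ∫ x, trig a N x ∂μ = (N : ℂ) ^ 2 * ∫ x, (fourier a x : ℂ) ∂μ := by
    unfold trig
    rw [integral_finsetSum _ fun b _ => hint _]
    have : ∀ b ∈ box N, ∫ x, (fourier (a * (2 ^ b.1 * 3 ^ b.2)) x : ℂ) ∂μ =
        ∫ x, (fourier a x : ℂ) ∂μ := by
      intro b _
      rw [← mul_assoc]
      have e3 := coeff_pow h3 (a * 2 ^ b.1) b.2
      have e2 := coeff_pow h2 a b.1
      push_cast at e2 e3
      rw [e3, e2]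
    rw [Finset.sum_congr rfl this, Finset.sum_const]
    unfold box
    rw [Finset.card_product, Finset.card_range, nsmul_eq_mul]
    push_cast
    ring
  have hbd : ∀ x, ‖trig a N x‖ ≤ (box N).card := by
    intro x
    unfold trig
    refine (norm_sum_le _ _).trans ?_
    simp_rw [norm_fourier]
    simp
  have hI1 : Integrable (fun x => ‖trig a N x‖) μ :=
    Integrable.of_bound (trig_cont a N).norm.aestronglyMeasurable ((box N).card : ℝ)
      (Eventually.of_forall fun x => by rw [norm_norm]; exact hbd x)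
  have hI2 : Integrable (fun x => ‖trig a N x‖ ^ (2 * k)) μ :=
    Integrable.of_bound ((trig_cont a N).norm.pow _).aestronglyMeasurable (((box N).card : ℝ) ^ (2 * k))
      (Eventually.of_forall fun x => by
        rw [norm_pow, norm_norm]
        exact pow_le_pow_left₀ (norm_nonneg _) (hbd x) _)
  have hJ : (∫ x, ‖trig a N x‖ ∂μ) ^ (2 * k) ≤ ∫ x, ‖trig a N x‖ ^ (2 * k) ∂μ :=
    (convexOn_pow (2 * k)).map_integral_le (continuous_pow _).continuousOn isClosed_Ici
      (Eventually.of_forall fun x => norm_nonneg _) hI1 hI2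
  have h4 : ‖∫ x, (fourier a x : ℂ) ∂μ‖ ^ (2 * k) * (N : ℝ) ^ (4 * k) = ‖∫ x, trig a N x ∂μ‖ ^ (2 * k) := by
    rw [hmean, norm_mul, norm_pow, Complex.norm_natCast, mul_pow, ← pow_mul]
    ring
  rw [h4]
  have h5 : ‖∫ x, trig a N x ∂μ‖ ^ (2 * k) ≤ ∫ x, ‖trig a N x‖ ^ (2 * k) ∂μ :=
    (pow_le_pow_left₀ (norm_nonneg _) (norm_integral_le_integral_norm _) _).trans hJ
  refine h5.trans ?_
  have h6 : ((∫ x, ‖trig a N x‖ ^ (2 * k) ∂μ : ℝ) : ℂ) =
      ∑ z ∈ Fintype.piFinset (fun _ : Fin k ⊕ Fin k => box N),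
        ∫ x, (fourier (a * nn (sg k) z) x : ℂ) ∂μ := by
    rw [← integral_finsetSum _ fun z _ => hint _, ← integral_complex_ofReal]
    refine integral_congr_ae (Eventually.of_forall fun x => ?_)
    exact trig_pow k a N x
  have h7 : 0 ≤ ∫ x, ‖trig a N x‖ ^ (2 * k) ∂μ := integral_nonneg fun x => by positivity
  calc ∫ x, ‖trig a N x‖ ^ (2 * k) ∂μ = ‖((∫ x, ‖trig a N x‖ ^ (2 * k) ∂μ : ℝ) : ℂ)‖ := by
        rw [Complex.norm_real, Real.norm_of_nonneg h7]
    _ ≤ _ := by
        rw [h6]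
        exact norm_sum_le _ _

open Classical in
/-- many tuples with a large coefficient -/
theorem large_tuples {μ : Measure UnitAddCircle} [IsProbabilityMeasure μ]
    (h2 : MeasurePreserving (fun x : UnitAddCircle => 2 • x) μ μ)
    (h3 : MeasurePreserving (fun x : UnitAddCircle => 3 • x) μ μ) (k : ℕ) (a : ℤ) (N : ℕ)
    {α θ : ℝ} (hα : 0 < α) (hθ : 0 < θ) (ha : α ≤ ‖∫ x, (fourier a x : ℂ) ∂μ‖) :
    (1 - θ) * α ^ (2 * k) * (N : ℝ) ^ (4 * k) ≤
      ((Fintype.piFinset (fun _ : Fin k ⊕ Fin k => box N)).filter fun z =>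
        θ * α ^ (2 * k) ≤ ‖∫ x, (fourier (a * nn (sg k) z) x : ℂ) ∂μ‖).card := by
  have h1 := moment h2 h3 k a N
  have hN : (0 : ℝ) ≤ (N : ℝ) ^ (4 * k) := by positivity
  have h4 : α ^ (2 * k) * (N : ℝ) ^ (4 * k) ≤
      ‖∫ x, (fourier a x : ℂ) ∂μ‖ ^ (2 * k) * (N : ℝ) ^ (4 * k) :=
    mul_le_mul_of_nonneg_right (pow_le_pow_left₀ hα.le ha _) hN
  have hcard : ((Fintype.piFinset (fun _ : Fin k ⊕ Fin k => box N)).card : ℝ) = (N : ℝ) ^ (4 * k) := by
    rw [Fintype.card_piFinset, Finset.prod_const, Finset.card_univ, Fintype.card_sum, Fintype.card_fin]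
    unfold box
    rw [Finset.card_product, Finset.card_range]
    push_cast
    ring
  have hsum : ∑ z ∈ Fintype.piFinset (fun _ : Fin k ⊕ Fin k => box N),
      ‖∫ x, (fourier (a * nn (sg k) z) x : ℂ) ∂μ‖ ≤
      ((Fintype.piFinset (fun _ : Fin k ⊕ Fin k => box N)).filter fun z =>
        θ * α ^ (2 * k) ≤ ‖∫ x, (fourier (a * nn (sg k) z) x : ℂ) ∂μ‖).card +
      θ * α ^ (2 * k) * (N : ℝ) ^ (4 * k) := by
    rw [← Finset.sum_filter_add_sum_filter_not _ fun z =>
        θ * α ^ (2 * k) ≤ ‖∫ x, (fourier (a * nn (sg k) z) x : ℂ) ∂μ‖]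
    refine add_le_add ?_ ?_
    · refine (Finset.sum_le_card_nsmul _ _ 1 fun z _ => coeff_le μ _).trans ?_
      rw [nsmul_eq_mul, mul_one]
    · refine (Finset.sum_le_card_nsmul _ _ (θ * α ^ (2 * k)) fun z hz => ?_).trans ?_
      · rw [Finset.mem_filter] at hz
        exact (not_le.1 hz.2).le
      · rw [nsmul_eq_mul, mul_comm, ← hcard]
        refine mul_le_mul_of_nonneg_left ?_ (by positivity)
        exact_mod_cast Finset.card_filter_le _ _
  linarith

end Pool.Agent.R202.LC
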