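import Pool.Agent.TH261.AB.Vdc
import Pool.Agent.R202.LCc

/-!
Means of the Fourier coefficients `μ^(c_0 + c_1 p ^ n + ... + c_(d-1) p ^ ((d - 1) n))`.
-/

set_option autoImplicit false

open MeasureTheory Filter Topology Set
open scoped InnerProductSpace

namespace Pool.Agent.R202.PM

open Pool.Agent.R202.LC (norm_fourier fourier_nsmul coeff_le coeff_pow)
open Pool.Agent.W761.Gauss (A1)

/-- the Fourier coefficients -/
noncomputable def co (μ : Measure UnitAddCircle) (n : ℤ) : ℂ := ∫ x, (fourier n x : ℂ) ∂μ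

lemma co_norm (μ : Measure UnitAddCircle) [IsProbabilityMeasure μ] (n : ℤ) : ‖co μ n‖ ≤ 1 := coeff_le μ n

lemma co_zero (μ : Measure UnitAddCircle) [IsProbabilityMeasure μ] : co μ 0 = 1 := by
  unfold co
  simp

lemma co_neg (μ : Measure UnitAddCircle) (n : ℤ) : co μ (-n) = (starRingEnd ℂ) (co μ n) := by
  unfold co
  rw [← integral_conj]
  refine integral_congr_ae (Eventually.of_forall fun x => ?_)
  show (fourier (-n) x : ℂ) = (starRingEnd ℂ) (fourier n x : ℂ)
  rw [← fourier_neg]

lemma co_pow {μ : Measure UnitAddCircle} {p : ℕ}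
    (hp : MeasurePreserving (fun x : UnitAddCircle => p • x) μ μ) (n : ℤ) (i : ℕ) :
    co μ ((p : ℤ) ^ i * n) = co μ n := by
  unfold co
  rw [mul_comm]
  exact coeff_pow hp n i

lemma memLp (μ : Measure UnitAddCircle) [IsProbabilityMeasure μ] (n : ℤ) :
    MemLp (fun x : UnitAddCircle => (fourier n x : ℂ)) 2 μ :=
  MemLp.of_bound (fourier n).continuous.aestronglyMeasurable 1
    (Eventually.of_forall fun x => (norm_fourier n x).le)

/-- the characters in the Hilbert space -/
noncomputable def E (μ : Measure UnitAddCircle) [IsProbabilityMeasure μ] (n : ℤ) : Lp ℂ 2 μ :=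
  (memLp μ n).toLp

lemma inner_E (μ : Measure UnitAddCircle) [IsProbabilityMeasure μ] (m n : ℤ) :
    ⟪E μ m, E μ n⟫_ℂ = co μ (n - m) := by
  rw [L2.inner_def]
  unfold co
  refine integral_congr_ae ?_
  filter_upwards [(memLp μ m).coeFn_toLp, (memLp μ n).coeFn_toLp] with x h1 h2
  show ⟪(E μ m : UnitAddCircle → ℂ) x, (E μ n : UnitAddCircle → ℂ) x⟫_ℂ = _
  unfold E
  rw [h1, h2, RCLike.inner_apply, ← fourier_neg, sub_eq_add_neg, fourier_add]

lemma norm_E (μ : Measure UnitAddCircle) [IsProbabilityMeasure μ] (n : ℤ) : ‖E μ n‖ = 1 := by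
  have h1 := norm_sq_eq_re_inner (𝕜 := ℂ) (E μ n)
  rw [inner_E, sub_self, co_zero] at h1
  have h2 : ‖E μ n‖ ^ 2 = 1 := by rw [h1]; simp
  nlinarith [norm_nonneg (E μ n)]

/-- means over a multiple -/
lemma mean_mul {y : ℕ → ℝ} (hy : ∀ n, 0 ≤ y n)
    (h : Tendsto (fun N : ℕ => (N : ℝ)⁻¹ * ∑ n ∈ Finset.range N, y n) atTop (𝓝 0)) {k : ℕ} (hk : 1 ≤ k) :
    Tendsto (fun N : ℕ => (N : ℝ)⁻¹ * ∑ n ∈ Finset.range N, y (k * n)) atTop (𝓝 0) := by
  have h1 : Tendsto (fun N : ℕ => (k : ℝ) * (((k * N : ℕ) : ℝ)⁻¹ * ∑ n ∈ Finset.range (k * N), y n))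
      atTop (𝓝 ((k : ℝ) * 0)) := by
    refine Tendsto.const_mul _ ?_
    have h2 : Tendsto (fun N : ℕ => k * N) atTop atTop :=
      Filter.Tendsto.const_mul_atTop' (by omega) tendsto_id
    exact h.comp h2
  rw [mul_zero] at h1
  refine squeeze_zero (fun N => ?_) (fun N => ?_) h1
  · exact mul_nonneg (by positivity) (Finset.sum_nonneg fun n _ => hy _)
  · have h3 : ∑ n ∈ Finset.range N, y (k * n) ≤ ∑ n ∈ Finset.range (k * N), y n := by
      have h4 : ∑ n ∈ Finset.range N, y (k * n) =
          ∑ m ∈ (Finset.range N).image (fun n => k * n), y m := by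
        rw [Finset.sum_image]
        intro a _ b _ hab
        exact Nat.eq_of_mul_eq_mul_left (by omega) hab
      rw [h4]
      refine Finset.sum_le_sum_of_subset_of_nonneg ?_ fun i _ _ => hy i
      intro m hm
      rw [Finset.mem_image] at hm
      obtain ⟨n, hn, rfl⟩ := hm
      rw [Finset.mem_range] at hn ⊢
      exact Nat.mul_lt_mul_of_pos_left hn (by omega)
    have hk0 : (k : ℝ) ≠ 0 := by exact_mod_cast (by omega : k ≠ 0)
    push_cast
    rw [mul_inv, ← mul_assoc, ← mul_assoc, mul_inv_cancel₀ hk0, one_mul]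
    exact mul_le_mul_of_nonneg_left h3 (by positivity)

/-- products of numbers in the unit disc -/
lemma prod_sub {ι : Type*} (s : Finset ι) (x y : ι → ℂ) (hx : ∀ i, ‖x i‖ ≤ 1) (hy : ∀ i, ‖y i‖ ≤ 1) :
    ‖∏ i ∈ s, x i - ∏ i ∈ s, y i‖ ≤ ∑ i ∈ s, ‖x i - y i‖ := by
  classical
  induction s using Finset.induction_on with
  | empty => simp
  | insert a s ha ih =>
    rw [Finset.prod_insert ha, Finset.prod_insert ha, Finset.sum_insert ha]
    have e : x a * ∏ i ∈ s, x i - y a * ∏ i ∈ s, y i =
        (x a - y a) * ∏ i ∈ s, x i + y a * (∏ i ∈ s, x i - ∏ i ∈ s, y i) := by ring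
    rw [e]
    refine (norm_add_le _ _).trans (add_le_add ?_ ?_)
    · rw [norm_mul]
      have : ‖∏ i ∈ s, x i‖ ≤ 1 := by
        rw [norm_prod]
        exact Finset.prod_le_one (fun i _ => norm_nonneg _) fun i _ => hx i
      nlinarith [norm_nonneg (x a - y a)]
    · rw [norm_mul]
      nlinarith [norm_nonneg (∏ i ∈ s, x i - ∏ i ∈ s, y i), hy a]

/-- weak mixing in terms of the coefficients -/
def WM (p : ℕ) (μ : Measure UnitAddCircle) : Prop :=
  ∀ a : ℤ, Tendsto (fun H : ℕ => (H : ℝ)⁻¹ * ∑ h ∈ Finset.range H,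
    ‖co μ (a * ((p : ℤ) ^ h - 1)) - co μ a * (starRingEnd ℂ) (co μ a)‖) atTop (𝓝 0)

/-- the polynomial expression -/
def G (p d : ℕ) (c : ℕ → ℤ) (n : ℕ) : ℤ := ∑ i ∈ Finset.range d, c i * (p : ℤ) ^ (i * n)

lemma G_diff (p d : ℕ) (c : ℕ → ℤ) (n h : ℕ) :
    (p : ℤ) ^ (n + h) * G p d c (n + h) - (p : ℤ) ^ n * G p d c n =
      (p : ℤ) ^ n * G p d (fun i => c i * ((p : ℤ) ^ ((i + 1) * h) - 1)) n := by
  unfold G
  rw [Finset.mul_sum, Finset.mul_sum, Finset.mul_sum, ← Finset.sum_sub_distrib]
  refine Finset.sum_congr rfl fun i _ => ?_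
  ring

lemma G_shift (p d : ℕ) (c : ℕ → ℤ) (n h : ℕ) :
    G p d c (n + h) = G p d (fun i => c i * (p : ℤ) ^ (i * h)) n := by
  unfold G
  refine Finset.sum_congr rfl fun i _ => ?_
  ring

lemma G_succ (p d : ℕ) (c : ℕ → ℤ) (n : ℕ) :
    G p (d + 1) c n = (p : ℤ) ^ n * G p d (fun i => c (i + 1)) n + c 0 := by
  unfold G
  rw [Finset.sum_range_succ', Finset.mul_sum]
  congr 1
  · refine Finset.sum_congr rfl fun i _ => ?_
    ring
  · simp

/-- **Means of the coefficients along polynomials.** -/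
theorem avg {p : ℕ} {μ : Measure UnitAddCircle} [IsProbabilityMeasure μ]
    (hp : MeasurePreserving (fun x : UnitAddCircle => p • x) μ μ) (hw : WM p μ) :
    ∀ (d : ℕ) (c : ℕ → ℤ), Tendsto (fun N : ℕ => (N : ℂ)⁻¹ * ∑ n ∈ Finset.range N, co μ (G p d c n))
      atTop (𝓝 (∏ i ∈ Finset.range d, co μ (c i))) := by
  intro d
  induction d with
  | zero =>
    intro c
    refine tendsto_const_nhds.congr' ?_
    filter_upwards [eventually_gt_atTop 0] with N hN
    have hN0 : (N : ℂ) ≠ 0 := by exact_mod_cast hN.ne'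
    simp only [G, Finset.range_zero, Finset.sum_empty, Finset.prod_empty, co_zero, Finset.sum_const,
      Finset.card_range, nsmul_eq_mul, mul_one]
    rw [inv_mul_cancel₀ hN0]
  | succ d ih =>
    intro c
    set c1 : ℕ → ℤ := fun i => c (i + 1) with hc1
    set L : ℂ := ∏ i ∈ Finset.range d, co μ (c1 i) with hL
    have hL1 : ‖L‖ ≤ 1 := by
      rw [hL, norm_prod]
      exact Finset.prod_le_one (fun i _ => norm_nonneg _) fun i _ => co_norm μ _
    set v : ℕ → Lp ℂ 2 μ := fun n => E μ ((p : ℤ) ^ n * G p d c1 n) - L • E μ 0 with hv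
    have hv2 : ∀ n, ‖v n‖ ≤ 2 := by
      intro n
      refine (norm_sub_le _ _).trans ?_
      rw [norm_smul, norm_E, norm_E]
      linarith
    have hin : ∀ n h : ℕ, ⟪v n, v (n + h)⟫_ℂ =
        co μ (G p d (fun i => c1 i * ((p : ℤ) ^ ((i + 1) * h) - 1)) n) -
        L * (starRingEnd ℂ) (co μ (G p d c1 n)) -
        (starRingEnd ℂ) L * co μ (G p d (fun i => c1 i * (p : ℤ) ^ (i * h)) n) +
        (starRingEnd ℂ) L * L := by
      intro n h
      simp only [hv]
      rw [inner_sub_left, inner_sub_right, inner_sub_right, inner_smul_left, inner_smul_right,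
        inner_smul_left, inner_smul_right, inner_E, inner_E, inner_E, inner_E, G_diff, co_pow hp,
        zero_sub, sub_zero, sub_self, co_neg, co_pow hp, co_pow hp, co_zero, G_shift]
      ring
    set M : ℕ → ℂ := fun h => ∏ i ∈ Finset.range d, co μ (c1 i * ((p : ℤ) ^ ((i + 1) * h) - 1)) with hM
    have hlim : ∀ h : ℕ, Tendsto (fun N => A1 (fun n => ⟪v n, v (n + h)⟫_ℂ) N) atTop
        (𝓝 (M h - (starRingEnd ℂ) L * L)) := by
      intro h
      have h1 := ih (fun i => c1 i * ((p : ℤ) ^ ((i + 1) * h) - 1))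
      have h2 := ((Complex.continuous_conj.tendsto _).comp (ih c1)).const_mul L
      have h3 := (ih (fun i => c1 i * (p : ℤ) ^ (i * h))).const_mul ((starRingEnd ℂ) L)
      have e3 : ∏ i ∈ Finset.range d, co μ ((fun i => c1 i * (p : ℤ) ^ (i * h)) i) = L := by
        rw [hL]
        refine Finset.prod_congr rfl fun i _ => ?_
        show co μ (c1 i * (p : ℤ) ^ (i * h)) = _
        rw [mul_comm, co_pow hp]
      rw [e3] at h3
      have h4 := ((h1.sub h2).sub h3).add (tendsto_const_nhds (x := (starRingEnd ℂ) L * L)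
        (f := (atTop : Filter ℕ)))
      have e4 : M h - L * (starRingEnd ℂ) L - (starRingEnd ℂ) L * L + (starRingEnd ℂ) L * L =
          M h - (starRingEnd ℂ) L * L := by ring
      rw [← hL] at h4
      rw [← e4]
      refine h4.congr' ?_
      filter_upwards [eventually_gt_atTop 0] with N hN
      have hN0 : (N : ℂ) ≠ 0 := by exact_mod_cast hN.ne'
      unfold A1
      simp_rw [hin]
      simp only [Function.comp_apply, map_mul, map_sum, map_inv₀, Complex.conj_natCast]
      rw [Finset.sum_add_distrib, Finset.sum_sub_distrib, Finset.sum_sub_distrib, ← Finset.mul_sum,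
        ← Finset.mul_sum, Finset.sum_const, Finset.card_range, nsmul_eq_mul]
      field_simp
    set b : ℕ → ℝ := fun h => if h = 0 then 4 else ‖M h - (starRingEnd ℂ) L * L‖ with hb
    have hvdc := Pool.Agent.TH261.AB.vdcH (F := v) (C := 2) (by norm_num) hv2 b
      (by rw [hb]; norm_num) (fun h => by
        simp only [hb]
        split_ifs
        · norm_num
        · exact norm_nonneg _) (by
        intro h hh ε hε
        have h1 := (hlim h).norm
        filter_upwards [h1.eventually_le_const (show ‖M h - (starRingEnd ℂ) L * L‖ <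
          ‖M h - (starRingEnd ℂ) L * L‖ + ε by linarith)] with N hN
        simp only [hb]
        rw [if_neg (by omega)]
        exact hN) (by
        intro ε hε
        -- the means of the products
        have hy : ∀ i ∈ Finset.range d, Tendsto (fun H : ℕ => (H : ℝ)⁻¹ * ∑ h ∈ Finset.range H,
            ‖co μ (c1 i * ((p : ℤ) ^ ((i + 1) * h) - 1)) - co μ (c1 i) * (starRingEnd ℂ) (co μ (c1 i))‖)
            atTop (𝓝 0) := by
          intro i _
          exact mean_mul (y := fun h => ‖co μ (c1 i * ((p : ℤ) ^ h - 1)) -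
            co μ (c1 i) * (starRingEnd ℂ) (co μ (c1 i))‖) (fun n => norm_nonneg _) (hw (c1 i))
            (by omega)
        have hsum := tendsto_finsetSum (Finset.range d) hy
        rw [Finset.sum_const_zero] at hsum
        have h4 : Tendsto (fun H : ℕ => (4 : ℝ) / H) atTop (𝓝 0) := tendsto_const_div_atTop_nhds_zero_nat 4
        have htot := h4.add hsum
        rw [add_zero] at htot
        obtain ⟨H, hH, hH1⟩ := ((htot.eventually_le_const hε).and (eventually_ge_atTop 1)).exists
        refine ⟨H, hH1, le_trans ?_ hH⟩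
        have hH0 : (0 : ℝ) < H := by exact_mod_cast hH1
        have hbh : ∀ h, b h ≤ (if h = 0 then (4 : ℝ) else 0) + ∑ i ∈ Finset.range d,
            ‖co μ (c1 i * ((p : ℤ) ^ ((i + 1) * h) - 1)) -
              co μ (c1 i) * (starRingEnd ℂ) (co μ (c1 i))‖ := by
          intro h
          simp only [hb]
          split_ifs with h0
          · have : 0 ≤ ∑ i ∈ Finset.range d, ‖co μ (c1 i * ((p : ℤ) ^ ((i + 1) * h) - 1)) -
              co μ (c1 i) * (starRingEnd ℂ) (co μ (c1 i))‖ := Finset.sum_nonneg fun i _ => norm_nonneg _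
            linarith
          · rw [zero_add]
            have e : (starRingEnd ℂ) L * L = ∏ i ∈ Finset.range d,
                (co μ (c1 i) * (starRingEnd ℂ) (co μ (c1 i))) := by
              rw [Finset.prod_mul_distrib, hL, map_prod, mul_comm]
            rw [e, hM]
            refine prod_sub _ _ _ (fun i => co_norm μ _) fun i => ?_
            rw [norm_mul, Complex.norm_conj]
            exact mul_le_one₀ (co_norm μ _) (norm_nonneg _) (co_norm μ _)
        calc (H : ℝ)⁻¹ * ∑ h ∈ Finset.range H, b h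
            ≤ (H : ℝ)⁻¹ * ∑ h ∈ Finset.range H, ((if h = 0 then (4 : ℝ) else 0) +
              ∑ i ∈ Finset.range d, ‖co μ (c1 i * ((p : ℤ) ^ ((i + 1) * h) - 1)) -
                co μ (c1 i) * (starRingEnd ℂ) (co μ (c1 i))‖) :=
              mul_le_mul_of_nonneg_left (Finset.sum_le_sum fun h _ => hbh h) (by positivity)
          _ = _ := by
              rw [Finset.sum_add_distrib, mul_add, Finset.sum_ite_eq',
                if_pos (Finset.mem_range.2 (by omega)), div_eq_inv_mul]
              congr 1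
              rw [Finset.sum_comm, Finset.mul_sum])
    -- test against a character
    have h1 : Tendsto (fun N : ℕ => ⟪E μ (-c 0), (N : ℂ)⁻¹ • ∑ n ∈ Finset.range N, v n⟫_ℂ) atTop
        (𝓝 ⟪E μ (-c 0), (0 : Lp ℂ 2 μ)⟫_ℂ) := tendsto_const_nhds.inner hvdc
    rw [inner_zero_right] at h1
    have h2 := h1.add (tendsto_const_nhds (x := co μ (c 0) * L) (f := (atTop : Filter ℕ)))
    rw [zero_add] at h2
    rw [Finset.prod_range_succ', mul_comm]
    refine h2.congr' ?_
    filter_upwards [eventually_gt_atTop 0] with N hN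
    have hN0 : (N : ℂ) ≠ 0 := by exact_mod_cast hN.ne'
    rw [inner_smul_right, inner_sum]
    have e1 : ∀ n, ⟪E μ (-c 0), v n⟫_ℂ = co μ (G p (d + 1) c n) - co μ (c 0) * L := by
      intro n
      simp only [hv]
      rw [inner_sub_right, inner_smul_right, inner_E, inner_E, G_succ, sub_neg_eq_add, zero_sub, neg_neg]
      ring
    simp_rw [e1]
    rw [Finset.sum_sub_distrib, Finset.sum_const, Finset.card_range, nsmul_eq_mul, mul_sub,
      ← mul_assoc, inv_mul_cancel₀ hN0, one_mul]
    ring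

end Pool.Agent.R202.PM
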