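import Mathlib

/-!
Two commuting contractions with only trivial common fixed vectors: product of the two means.
-/

set_option autoImplicit false

open MeasureTheory Filter Topology Set
open scoped ENNReal InnerProductSpace

namespace Pool.Agent.R202.TM

section Hilbert

variable {H : Type*} [NormedAddCommGroup H] [InnerProductSpace ℂ H] [CompleteSpace H]

/-- the mean ergodic theorem -/
lemma mean (U : H →L[ℂ] H) (hU : ‖U‖ ≤ 1) : ∃ P : H → H,
    (∀ x, Tendsto (birkhoffAverage ℂ (⇑U) _root_.id · x) atTop (𝓝 (P x))) ∧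
    (∀ x, U (P x) = P x) ∧ (∀ x, U x = x → P x = x) ∧ (∀ x y, ⟪P x, y⟫_ℂ = ⟪x, P y⟫_ℂ) := by
  refine ⟨fun x => (U.eqLocus (1 : H →L[ℂ] H)).starProjection x, fun x => ?_, fun x => ?_,
    fun x hx => ?_, fun x y => ?_⟩
  · exact U.tendsto_birkhoffAverage_orthogonalProjection hU x
  · exact Submodule.starProjection_apply_mem (U.eqLocus (1 : H →L[ℂ] H)) x
  · exact Submodule.starProjection_eq_self_iff.2 hx
  · exact Submodule.inner_starProjection_left_eq_right _ x y

theorem two_means (U V : H →L[ℂ] H) (hU : ‖U‖ ≤ 1) (hV : ‖V‖ ≤ 1) (hUV : ∀ x, U (V x) = V (U x))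
    (e : H) (h1 : U e = e) (h2 : V e = e)
    (herg : ∀ w, U w = w → V w = w → w = ⟪e, w⟫_ℂ • e) (f g : H) :
    Tendsto (fun K : ℕ × ℕ => (∑ i ∈ Finset.range K.1, ∑ j ∈ Finset.range K.2,
      ⟪U^[i] f, V^[j] g⟫_ℂ) / ((K.1 : ℂ) * K.2)) atTop (𝓝 (⟪f, e⟫_ℂ * ⟪e, g⟫_ℂ)) := by
  obtain ⟨P, hP, hPf, hPe, hPs⟩ := mean U hU
  obtain ⟨Q, hQ, hQf, hQe, hQs⟩ := mean V hV
  -- the value of the limit
  have hval : ⟪P f, Q g⟫_ℂ = ⟪f, e⟫_ℂ * ⟪e, g⟫_ℂ := by
    have hQh2 : U (Q (P f)) = Q (P f) := by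
      have hC := hQ (P f)
      have hD := (U.continuous.tendsto _).comp hC
      have hE : (⇑U ∘ fun n => birkhoffAverage ℂ (⇑V) _root_.id n (P f)) =
          fun n => birkhoffAverage ℂ (⇑V) _root_.id n (P f) := by
        funext n
        have hcomm : ∀ k : ℕ, U (V^[k] (P f)) = V^[k] (P f) := by
          intro k
          have hc : Function.Commute (⇑U) (⇑V) := hUV
          have := (hc.iterate_right k) (P f)
          rw [this, hPf]
        simp only [Function.comp_apply, birkhoffAverage, birkhoffSum, _root_.id, map_smul, map_sum, hcomm]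
      rw [hE] at hD
      exact tendsto_nhds_unique hD hC
    have hQh := herg _ hQh2 (hQf _)
    have hin : ⟪e, Q (P f)⟫_ℂ = ⟪e, f⟫_ℂ := by
      rw [← hQs, hQe e h2, ← hPs, hPe e h1]
    rw [← hQs, hQh, hin, inner_smul_left, inner_conj_symm]
  rw [← hval]
  have hAB : Tendsto (fun K : ℕ × ℕ => ⟪birkhoffAverage ℂ (⇑U) _root_.id K.1 f,
      birkhoffAverage ℂ (⇑V) _root_.id K.2 g⟫_ℂ) atTop (𝓝 ⟪P f, Q g⟫_ℂ) := by
    have hA' := (hP f).comp (tendsto_fst (f := (atTop : Filter ℕ)) (g := (atTop : Filter ℕ)))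
    have hB' := (hQ g).comp (tendsto_snd (f := (atTop : Filter ℕ)) (g := (atTop : Filter ℕ)))
    rw [prod_atTop_atTop_eq] at hA' hB'
    exact hA'.inner hB'
  refine hAB.congr fun K => ?_
  simp only [birkhoffAverage, birkhoffSum, _root_.id]
  rw [inner_smul_left, inner_smul_right, sum_inner]
  simp_rw [inner_sum]
  rw [map_inv₀, Complex.conj_natCast]
  rw [div_eq_inv_mul, mul_inv, mul_assoc]

end Hilbert

section Meas

variable {X : Type*} [MeasurableSpace X]

/-- Ergodicity of the pair of the maps `S`, `T` with respect to `μ`. -/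
def JointErg (S T : X → X) (μ : Measure X) : Prop :=
  ∀ E : Set X, MeasurableSet E → S ⁻¹' E = E → T ⁻¹' E = E → μ E = 0 ∨ μ E = 1

/-- an almost invariant measurable set is null or conull -/
lemma JointErg.ae {S T : X → X} {μ : Measure X} [IsProbabilityMeasure μ] (h : JointErg S T μ)
    (hS : MeasurePreserving S μ μ) (hT : MeasurePreserving T μ μ) (hST : ∀ x, S (T x) = T (S x))
    {A : Set X} (hA : MeasurableSet A) (hSA : S ⁻¹' A =ᵐ[μ] A) (hTA : T ⁻¹' A =ᵐ[μ] A) :
    μ A = 0 ∨ μ A = 1 := by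
  -- the strictly invariant version
  set E : Set X := {x | ∀ k : ℕ, ∃ i j : ℕ, k ≤ i ∧ k ≤ j ∧ S^[i] (T^[j] x) ∈ A} with hE
  have hEm : MeasurableSet E := by
    have e1 : E = ⋂ k : ℕ, ⋃ i : ℕ, ⋃ j : ℕ, {x | k ≤ i ∧ k ≤ j ∧ S^[i] (T^[j] x) ∈ A} := by
      ext x
      simp only [hE, mem_ofPred_eq, mem_iInter, mem_iUnion]
    rw [e1]
    refine MeasurableSet.iInter fun k => MeasurableSet.iUnion fun i => MeasurableSet.iUnion fun j => ?_
    by_cases hk : k ≤ i ∧ k ≤ j
    · have e2 : {x | k ≤ i ∧ k ≤ j ∧ S^[i] (T^[j] x) ∈ A} = (S^[i] ∘ T^[j]) ⁻¹' A := by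
        ext x
        simp [hk.1, hk.2]
      rw [e2]
      exact ((hS.measurable.iterate i).comp (hT.measurable.iterate j)) hA
    · have e2 : {x | k ≤ i ∧ k ≤ j ∧ S^[i] (T^[j] x) ∈ A} = ∅ := by
        ext x
        simp only [mem_ofPred_eq, mem_empty_iff_false, iff_false]
        rintro ⟨a, b, _⟩
        exact hk ⟨a, b⟩
      rw [e2]
      exact MeasurableSet.empty
  have hcomm : Function.Commute S T := hST
  have hSE : S ⁻¹' E = E := by
    ext x
    constructor
    · intro hx k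
      obtain ⟨i, j, hi, hj, hm⟩ := hx k
      refine ⟨i + 1, j, by omega, hj, ?_⟩
      rw [Function.iterate_succ_apply]
      have := (hcomm.iterate_right j) x
      rw [this]
      exact hm
    · intro hx k
      obtain ⟨i, j, hi, hj, hm⟩ := hx (k + 1)
      refine ⟨i - 1, j, by omega, by omega, ?_⟩
      obtain ⟨i', rfl⟩ : ∃ i', i = i' + 1 := ⟨i - 1, by omega⟩
      rw [Function.iterate_succ_apply] at hm
      have := (hcomm.iterate_right j) x
      rw [this] at hm
      exact hm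
  have hTE : T ⁻¹' E = E := by
    ext x
    constructor
    · intro hx k
      obtain ⟨i, j, hi, hj, hm⟩ := hx k
      refine ⟨i, j + 1, hi, by omega, ?_⟩
      rw [Function.iterate_succ_apply]
      exact hm
    · intro hx k
      obtain ⟨i, j, hi, hj, hm⟩ := hx (k + 1)
      refine ⟨i, j - 1, by omega, by omega, ?_⟩
      obtain ⟨j', rfl⟩ : ∃ j', j = j' + 1 := ⟨j - 1, by omega⟩
      rw [Function.iterate_succ_apply] at hm
      exact hm
  -- almost surely nothing changes
  have hS1 : ∀ᵐ x ∂μ, (S x ∈ A ↔ x ∈ A) := by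
    filter_upwards [hSA] with x hx
    exact Iff.of_eq hx
  have hT1 : ∀ᵐ x ∂μ, (T x ∈ A ↔ x ∈ A) := by
    filter_upwards [hTA] with x hx
    exact Iff.of_eq hx
  have hTj : ∀ j : ℕ, ∀ᵐ x ∂μ, (T^[j] x ∈ A ↔ x ∈ A) := by
    intro j
    induction j with
    | zero => exact Eventually.of_forall fun x => Iff.rfl
    | succ j ih =>
      have h3 := hT.quasiMeasurePreserving.ae ih
      filter_upwards [h3, hT1] with x hx hx1
      rw [Function.iterate_succ_apply, hx, hx1]
  have hSi : ∀ i : ℕ, ∀ᵐ x ∂μ, (S^[i] x ∈ A ↔ x ∈ A) := by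
    intro i
    induction i with
    | zero => exact Eventually.of_forall fun x => Iff.rfl
    | succ i ih =>
      have h3 := hS.quasiMeasurePreserving.ae ih
      filter_upwards [h3, hS1] with x hx hx1
      rw [Function.iterate_succ_apply, hx, hx1]
  have hall : ∀ᵐ x ∂μ, ∀ i j : ℕ, (S^[i] (T^[j] x) ∈ A ↔ x ∈ A) := by
    rw [ae_all_iff]
    intro i
    rw [ae_all_iff]
    intro j
    have h3 := (hT.iterate j).quasiMeasurePreserving.ae (hSi i)
    filter_upwards [h3, hTj j] with x hx hx1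
    rw [hx, hx1]
  have hAE : A =ᵐ[μ] E := by
    filter_upwards [hall] with x hx
    refine propext ?_
    constructor
    · intro ha k
      exact ⟨k, k, le_rfl, le_rfl, (hx k k).2 ha⟩
    · intro he
      obtain ⟨i, j, _, _, hm⟩ := he 0
      exact (hx i j).1 hm
  rw [measure_congr hAE]
  exact h E hEm hSE hTE

/-- a common invariant complex function is constant -/
lemma const_of_inv {S T : X → X} {μ : Measure X} [IsProbabilityMeasure μ] (h : JointErg S T μ)
    (hS : MeasurePreserving S μ μ) (hT : MeasurePreserving T μ μ) (hST : ∀ x, S (T x) = T (S x))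
    {u : X → ℂ} (hu : Measurable u) (hSu : ∀ᵐ x ∂μ, u (S x) = u x) (hTu : ∀ᵐ x ∂μ, u (T x) = u x) :
    ∃ c : ℂ, ∀ᵐ x ∂μ, u x = c := by
  have hc := Filter.exists_eventuallyEq_const_of_forall_separating (α := X) (β := ℂ) (f := u) (l := ae μ)
    MeasurableSet ?_
  · obtain ⟨c, hc⟩ := hc
    exact ⟨c, hc⟩
  · intro B hB
    have hA : MeasurableSet (u ⁻¹' B) := hu hB
    have h1 : S ⁻¹' (u ⁻¹' B) =ᵐ[μ] u ⁻¹' B := by
      filter_upwards [hSu] with x hx
      refine propext ?_
      show u (S x) ∈ B ↔ u x ∈ B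
      rw [hx]
    have h2 : T ⁻¹' (u ⁻¹' B) =ᵐ[μ] u ⁻¹' B := by
      filter_upwards [hTu] with x hx
      refine propext ?_
      show u (T x) ∈ B ↔ u x ∈ B
      rw [hx]
    rcases h.ae hS hT hST hA h1 h2 with h3 | h3
    · right
      exact measure_eq_zero_iff_ae_notMem.1 h3
    · left
      exact (prob_compl_eq_zero_iff hA).2 h3

/-- the composition operator on the square integrable functions -/
noncomputable def comp {S : X → X} {μ : Measure X} (hS : MeasurePreserving S μ μ) :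
    Lp ℂ 2 μ →L[ℂ] Lp ℂ 2 μ :=
  (Lp.compMeasurePreservingₗᵢ ℂ S hS).toContinuousLinearMap

lemma comp_coe {S : X → X} {μ : Measure X} (hS : MeasurePreserving S μ μ) (w : Lp ℂ 2 μ) :
    (comp hS w : X → ℂ) =ᵐ[μ] w ∘ S := Lp.coeFn_compMeasurePreserving w hS

lemma comp_norm {S : X → X} {μ : Measure X} (hS : MeasurePreserving S μ μ) : ‖comp hS‖ ≤ 1 :=
  ContinuousLinearMap.opNorm_le_bound _ zero_le_one fun w => by
    rw [one_mul]
    exact ((Lp.compMeasurePreservingₗᵢ ℂ S hS).norm_map w).le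

lemma comp_iter {S : X → X} {μ : Measure X} (hS : MeasurePreserving S μ μ) (w : Lp ℂ 2 μ) (n : ℕ) :
    ((comp hS)^[n] w : X → ℂ) =ᵐ[μ] w ∘ S^[n] := by
  induction n with
  | zero => exact Eventually.of_forall fun x => rfl
  | succ n ih =>
    rw [Function.iterate_succ_apply']
    have h1 := comp_coe hS ((comp hS)^[n] w)
    have h2 := hS.quasiMeasurePreserving.ae_eq_comp ih
    filter_upwards [h1, h2] with x hx1 hx2
    rw [hx1]
    have : (((comp hS)^[n] w : X → ℂ) ∘ S) x = w (S^[n] (S x)) := hx2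
    rw [this]
    rfl

/-- **Means over boxes** of the correlations of two commuting jointly ergodic maps. -/
theorem means {S T : X → X} {μ : Measure X} [IsProbabilityMeasure μ] (h : JointErg S T μ)
    (hS : MeasurePreserving S μ μ) (hT : MeasurePreserving T μ μ) (hST : ∀ x, S (T x) = T (S x))
    {f g : X → ℂ} (hf : MemLp f 2 μ) (hg : MemLp g 2 μ) :
    Tendsto (fun K : ℕ × ℕ => (∑ i ∈ Finset.range K.1, ∑ j ∈ Finset.range K.2,
      ∫ x, f (S^[i] x) * g (T^[j] x) ∂μ) / ((K.1 : ℂ) * K.2)) atTop (𝓝 ((∫ x, f x ∂μ) * ∫ x, g x ∂μ)) := by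
  have h1m : MemLp (fun _ : X => (1 : ℂ)) 2 μ := memLp_const 1
  have hf' : MemLp (fun x => (starRingEnd ℂ) (f x)) 2 μ := hf.star
  set e := h1m.toLp with he
  set F := hf'.toLp with hF
  set G := hg.toLp with hG
  have hee : ∀ᵐ x ∂μ, (e : X → ℂ) x = 1 := h1m.coeFn_toLp
  have hFe : ∀ᵐ x ∂μ, (F : X → ℂ) x = (starRingEnd ℂ) (f x) := hf'.coeFn_toLp
  have hGe : ∀ᵐ x ∂μ, (G : X → ℂ) x = g x := hg.coeFn_toLp
  have hfix : ∀ {R : X → X} (hR : MeasurePreserving R μ μ), comp hR e = e := by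
    intro R hR
    apply Lp.ext
    filter_upwards [comp_coe hR e, hee, hR.quasiMeasurePreserving.ae hee] with x h1 h2 h3
    rw [h1, h2]
    exact h3
  have hcomm : ∀ w, comp hS (comp hT w) = comp hT (comp hS w) := by
    intro w
    apply Lp.ext
    filter_upwards [comp_coe hS (comp hT w), comp_coe hT (comp hS w),
      hS.quasiMeasurePreserving.ae_eq_comp (comp_coe hT w),
      hT.quasiMeasurePreserving.ae_eq_comp (comp_coe hS w)] with x h1 h2 h3 h4
    rw [h1, h2, h3, h4]
    show w (T (S x)) = w (S (T x))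
    rw [hST]
  have herg : ∀ w : Lp ℂ 2 μ, comp hS w = w → comp hT w = w → w = ⟪e, w⟫_ℂ • e := by
    intro w h1 h2
    set u : X → ℂ := (Lp.aestronglyMeasurable w).mk w with hu
    have hum : Measurable u := (Lp.aestronglyMeasurable w).stronglyMeasurable_mk.measurable
    have hue : ∀ᵐ x ∂μ, w x = u x := (Lp.aestronglyMeasurable w).ae_eq_mk
    have hSu : ∀ᵐ x ∂μ, u (S x) = u x := by
      have h3 := comp_coe hS w
      rw [h1] at h3
      filter_upwards [h3, hue, hS.quasiMeasurePreserving.ae hue] with x a b c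
      rw [← c, ← b, a]
      rfl
    have hTu : ∀ᵐ x ∂μ, u (T x) = u x := by
      have h3 := comp_coe hT w
      rw [h2] at h3
      filter_upwards [h3, hue, hT.quasiMeasurePreserving.ae hue] with x a b c
      rw [← c, ← b, a]
      rfl
    obtain ⟨c, hc⟩ := const_of_inv h hS hT hST hum hSu hTu
    have hwc : ∀ᵐ x ∂μ, w x = c := by
      filter_upwards [hue, hc] with x a b
      rw [a, b]
    have hin : ⟪e, w⟫_ℂ = c := by
      rw [L2.inner_def]
      have : ∀ᵐ x ∂μ, ⟪(e : X → ℂ) x, w x⟫_ℂ = c := by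
        filter_upwards [hee, hwc] with x a b
        rw [a, b]
        simp
      rw [integral_congr_ae this, integral_const, probReal_univ, one_smul]
    rw [hin]
    apply Lp.ext
    filter_upwards [hwc, hee, Lp.coeFn_smul c e] with x a b d
    rw [d, Pi.smul_apply, b, a, smul_eq_mul, mul_one]
  have hmain := two_means (comp hS) (comp hT) (comp_norm hS) (comp_norm hT) hcomm e (hfix hS) (hfix hT)
    herg F G
  have hv1 : ⟪F, e⟫_ℂ = ∫ x, f x ∂μ := by
    rw [L2.inner_def]
    refine integral_congr_ae ?_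
    filter_upwards [hee, hFe] with x a b
    rw [a, b]
    simp
  have hv2 : ⟪e, G⟫_ℂ = ∫ x, g x ∂μ := by
    rw [L2.inner_def]
    refine integral_congr_ae ?_
    filter_upwards [hee, hGe] with x a b
    rw [a, b]
    simp
  rw [hv1, hv2] at hmain
  refine hmain.congr fun K => ?_
  congr 1
  refine Finset.sum_congr rfl fun i _ => Finset.sum_congr rfl fun j _ => ?_
  rw [L2.inner_def]
  refine integral_congr_ae ?_
  filter_upwards [comp_iter hS F i, comp_iter hT G j, (hS.iterate i).quasiMeasurePreserving.ae hFe,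
    (hT.iterate j).quasiMeasurePreserving.ae hGe] with x a b c d
  rw [a, b]
  show ⟪F (S^[i] x), G (T^[j] x)⟫_ℂ = _
  rw [c, d]
  simp [mul_comm]

end Meas

end Pool.Agent.R202.TM
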