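import Pool.Agent.R202.PMa
import Pool.Agent.R202.TM

/-!
Second moments, weak mixing, and the rigidity of atomless measures.
-/

set_option autoImplicit false

open MeasureTheory Filter Topology Set
open scoped InnerProductSpace

namespace Pool.Agent.R202.PM

open Pool.Agent.R202.LC (norm_fourier fourier_nsmul coeff_le coeff_pow)
open Pool.Agent.R202.TM

lemma fourier_sub_pt (n : ℤ) (x y : UnitAddCircle) :
    (fourier n (x - y) : ℂ) = fourier n x * fourier (-n) y := by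
  rw [fourier_apply, fourier_apply, fourier_apply, ← Circle.coe_mul, ← AddCircle.toCircle_add,
    neg_smul, smul_sub, sub_eq_add_neg]

lemma iter_smul (p : ℕ) (i : ℕ) (x : UnitAddCircle) :
    (fun x : UnitAddCircle => p • x)^[i] x = (p ^ i) • x := by
  induction i with
  | zero => simp
  | succ i ih =>
    rw [Function.iterate_succ_apply', ih]
    show p • (p ^ i) • x = _
    rw [smul_smul, pow_succ']

lemma iter_smul2 (p : ℕ) (i : ℕ) (z : UnitAddCircle × UnitAddCircle) :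
    (fun z : UnitAddCircle × UnitAddCircle => (p • z.1, p • z.2))^[i] z =
      ((p ^ i) • z.1, (p ^ i) • z.2) := by
  induction i with
  | zero => simp
  | succ i ih =>
    rw [Function.iterate_succ_apply', ih]
    show (p • (p ^ i) • z.1, p • (p ^ i) • z.2) = _
    rw [smul_smul, smul_smul, pow_succ']

lemma sq_coeff (μ : Measure UnitAddCircle) [IsProbabilityMeasure μ] (m : ℤ) :
    ∫ z : UnitAddCircle × UnitAddCircle, (fourier m (z.1 - z.2) : ℂ) ∂(μ.prod μ) =
      ((‖co μ m‖ ^ 2 : ℝ) : ℂ) := by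
  simp_rw [fourier_sub_pt]
  rw [integral_prod_mul (fun x : UnitAddCircle => (fourier m x : ℂ)) (fun y : UnitAddCircle => (fourier (-m) y : ℂ))]
  have h1 := co_neg μ m
  unfold co at h1 ⊢
  rw [h1, Complex.mul_conj, Complex.normSq_eq_norm_sq]

lemma memLp_fourier2 (μ : Measure UnitAddCircle) [IsProbabilityMeasure μ] (n : ℤ) :
    MemLp (fun z : UnitAddCircle × UnitAddCircle => (fourier n (z.1 - z.2) : ℂ)) 2 (μ.prod μ) :=
  MemLp.of_bound ((fourier n).continuous.comp (continuous_fst.sub continuous_snd)).aestronglyMeasurable 1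
    (Eventually.of_forall fun _ => (norm_fourier n _).le)

lemma iter_self {X : Type*} (j : ℕ) (x : X) : (fun x : X => x)^[j] x = x := by
  induction j with
  | zero => rfl
  | succ j ih => rw [Function.iterate_succ_apply', ih]

/-- ergodicity as joint ergodicity with the identity -/
lemma jerg_id {X : Type*} [MeasurableSpace X] {S : X → X} {μ : Measure X} [IsProbabilityMeasure μ]
    (h : Ergodic S μ) : JointErg S (fun x => x) μ := by
  intro E hE h1 _
  exact h.toPreErgodic.prob_eq_zero_or_one hE h1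

lemma box_one (c : ℕ → ℂ) (A : ℂ) (h : Tendsto (fun K : ℕ × ℕ => (∑ i ∈ Finset.range K.1,
    ∑ _j ∈ Finset.range K.2, c i) / ((K.1 : ℂ) * K.2)) atTop (𝓝 A)) :
    Tendsto (fun N : ℕ => (N : ℂ)⁻¹ * ∑ i ∈ Finset.range N, c i) atTop (𝓝 A) := by
  have hd : Tendsto (fun N : ℕ => (N, N)) atTop (atTop : Filter (ℕ × ℕ)) := by
    rw [← prod_atTop_atTop_eq]
    exact tendsto_id.prodMk tendsto_id
  refine (h.comp hd).congr' ?_
  filter_upwards [eventually_gt_atTop 0] with N hN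
  have hN0 : (N : ℂ) ≠ 0 := by exact_mod_cast hN.ne'
  simp only [Function.comp_apply, Finset.sum_const, Finset.card_range, nsmul_eq_mul, ← Finset.mul_sum]
  field_simp

/-- one map: the mean of the coefficients -/
lemma mean1 {p : ℕ} {μ : Measure UnitAddCircle} [IsProbabilityMeasure μ]
    (herg : Ergodic (fun x : UnitAddCircle => p • x) μ) (a b : ℤ) :
    Tendsto (fun N : ℕ => (N : ℂ)⁻¹ * ∑ n ∈ Finset.range N, co μ (a * (p : ℤ) ^ n + b)) atTop
      (𝓝 (co μ a * co μ b)) := by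
  have h := means (jerg_id herg) herg.toMeasurePreserving (MeasurePreserving.id μ) (fun _ => rfl)
    (memLp μ a) (memLp μ b)
  refine box_one _ _ ?_
  refine h.congr fun K => ?_
  congr 1
  refine Finset.sum_congr rfl fun i _ => Finset.sum_congr rfl fun j _ => ?_
  refine integral_congr_ae (Eventually.of_forall fun x => ?_)
  show (fourier a ((fun x : UnitAddCircle => p • x)^[i] x) : ℂ) * fourier b ((fun x => x)^[j] x) = _
  rw [iter_smul, iter_self, fourier_nsmul, ← fourier_add]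
  push_cast
  rfl

/-- one map: the mean of the squares -/
lemma mean2 {p : ℕ} {μ : Measure UnitAddCircle} [IsProbabilityMeasure μ]
    (herg : Ergodic (fun z : UnitAddCircle × UnitAddCircle => (p • z.1, p • z.2)) (μ.prod μ)) (a b : ℤ) :
    Tendsto (fun N : ℕ => (N : ℝ)⁻¹ * ∑ n ∈ Finset.range N, ‖co μ (a * (p : ℤ) ^ n + b)‖ ^ 2) atTop
      (𝓝 (‖co μ a * co μ b‖ ^ 2)) := by
  have h := means (jerg_id herg) herg.toMeasurePreserving (MeasurePreserving.id (μ.prod μ))
    (fun _ => rfl) (memLp_fourier2 μ a) (memLp_fourier2 μ b)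
  rw [sq_coeff, sq_coeff] at h
  have h2 : Tendsto (fun N : ℕ => (N : ℂ)⁻¹ * ∑ n ∈ Finset.range N,
      ((‖co μ (a * (p : ℤ) ^ n + b)‖ ^ 2 : ℝ) : ℂ)) atTop
      (𝓝 (((‖co μ a‖ ^ 2 : ℝ) : ℂ) * ((‖co μ b‖ ^ 2 : ℝ) : ℂ))) := by
    refine box_one _ _ ?_
    refine h.congr fun K => ?_
    congr 1
    refine Finset.sum_congr rfl fun i _ => Finset.sum_congr rfl fun j _ => ?_
    rw [← sq_coeff]
    refine integral_congr_ae (Eventually.of_forall fun z => ?_)
    show (fourier a (((fun z : UnitAddCircle × UnitAddCircle => (p • z.1, p • z.2))^[i] z).1 -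
        ((fun z : UnitAddCircle × UnitAddCircle => (p • z.1, p • z.2))^[i] z).2) : ℂ) *
      fourier b (((fun z : UnitAddCircle × UnitAddCircle => z)^[j] z).1 -
        ((fun z : UnitAddCircle × UnitAddCircle => z)^[j] z).2) = _
    rw [iter_smul2, iter_self]
    show (fourier a ((p ^ i) • z.1 - (p ^ i) • z.2) : ℂ) * fourier b (z.1 - z.2) = _
    rw [← smul_sub, fourier_nsmul, ← fourier_add]
    push_cast
    rfl
  have h3 := (Complex.continuous_re.tendsto _).comp h2
  rw [← Complex.ofReal_mul, Complex.ofReal_re, ← mul_pow, ← norm_mul] at h3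
  refine h3.congr fun N => ?_
  show ((N : ℂ)⁻¹ * ∑ n ∈ Finset.range N, ((‖co μ (a * (p : ℤ) ^ n + b)‖ ^ 2 : ℝ) : ℂ)).re = _
  rw [← Complex.ofReal_natCast, ← Complex.ofReal_inv, ← Complex.ofReal_sum, ← Complex.ofReal_mul,
    Complex.ofReal_re]

/-- convergence of the first two moments -/
lemma dev_of (c : ℕ → ℂ) (A : ℂ)
    (h1 : Tendsto (fun N : ℕ => (N : ℂ)⁻¹ * ∑ n ∈ Finset.range N, c n) atTop (𝓝 A))
    (h2 : Tendsto (fun N : ℕ => (N : ℝ)⁻¹ * ∑ n ∈ Finset.range N, ‖c n‖ ^ 2) atTop (𝓝 (‖A‖ ^ 2))) :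
    Tendsto (fun N : ℕ => (N : ℝ)⁻¹ * ∑ n ∈ Finset.range N, ‖c n - A‖ ^ 2) atTop (𝓝 0) := by
  have h3 := (h1.const_mul ((starRingEnd ℂ) A))
  have h4 := (Complex.continuous_re.tendsto _).comp h3
  have h5 := (h2.sub (h4.const_mul 2)).add (tendsto_const_nhds (x := ‖A‖ ^ 2) (f := (atTop : Filter ℕ)))
  have e0 : ‖A‖ ^ 2 - 2 * ((starRingEnd ℂ) A * A).re + ‖A‖ ^ 2 = 0 := by
    rw [mul_comm ((starRingEnd ℂ) A), Complex.mul_conj, Complex.ofReal_re, Complex.normSq_eq_norm_sq]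
    ring
  rw [e0] at h5
  refine h5.congr' ?_
  filter_upwards [eventually_gt_atTop 0] with N hN
  have hN0 : (N : ℝ) ≠ 0 := by exact_mod_cast hN.ne'
  have e1 : ∀ n, ‖c n - A‖ ^ 2 = ‖c n‖ ^ 2 - 2 * ((starRingEnd ℂ) A * c n).re + ‖A‖ ^ 2 := by
    intro n
    rw [← Complex.normSq_eq_norm_sq, ← Complex.normSq_eq_norm_sq, ← Complex.normSq_eq_norm_sq,
      Complex.normSq_apply, Complex.normSq_apply, Complex.normSq_apply]
    simp only [Complex.sub_re, Complex.sub_im, Complex.mul_re, Complex.conj_re, Complex.conj_im]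
    ring
  have e2 : (((starRingEnd ℂ) A) * ((N : ℂ)⁻¹ * ∑ n ∈ Finset.range N, c n)).re =
      (N : ℝ)⁻¹ * ∑ n ∈ Finset.range N, ((starRingEnd ℂ) A * c n).re := by
    rw [mul_left_comm, ← Complex.ofReal_natCast, ← Complex.ofReal_inv, Complex.re_ofReal_mul,
      Finset.mul_sum, Complex.re_sum]
  show (N : ℝ)⁻¹ * ∑ n ∈ Finset.range N, ‖c n‖ ^ 2 -
    2 * (((starRingEnd ℂ) A) * ((N : ℂ)⁻¹ * ∑ n ∈ Finset.range N, c n)).re + ‖A‖ ^ 2 = _
  rw [e2]
  simp_rw [e1]
  rw [Finset.sum_add_distrib, Finset.sum_sub_distrib, ← Finset.mul_sum, Finset.sum_const,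
    Finset.card_range, nsmul_eq_mul]
  field_simp

/-- mean convergence from quadratic mean convergence -/
lemma mean_of_sq {y : ℕ → ℝ} (hy : ∀ n, 0 ≤ y n)
    (h : Tendsto (fun N : ℕ => (N : ℝ)⁻¹ * ∑ n ∈ Finset.range N, y n ^ 2) atTop (𝓝 0)) :
    Tendsto (fun N : ℕ => (N : ℝ)⁻¹ * ∑ n ∈ Finset.range N, y n) atTop (𝓝 0) := by
  have h1 := h.sqrt
  rw [Real.sqrt_zero] at h1
  refine squeeze_zero (fun N => mul_nonneg (by positivity) (Finset.sum_nonneg fun n _ => hy n))
    (fun N => ?_) h1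
  refine Real.le_sqrt_of_sq_le ?_
  rcases Nat.eq_zero_or_pos N with h0 | h0
  · subst h0; simp
  have hN : (0 : ℝ) < N := by exact_mod_cast h0
  have h2 := sq_sum_le_card_mul_sum_sq (s := Finset.range N) (f := y)
  rw [Finset.card_range] at h2
  calc ((N : ℝ)⁻¹ * ∑ n ∈ Finset.range N, y n) ^ 2 = (N : ℝ)⁻¹ ^ 2 * (∑ n ∈ Finset.range N, y n) ^ 2 := by
        ring
    _ ≤ (N : ℝ)⁻¹ ^ 2 * (N * ∑ n ∈ Finset.range N, y n ^ 2) := mul_le_mul_of_nonneg_left h2 (by positivity)
    _ = _ := by field_simp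

lemma erg_of_prod {p : ℕ} {μ : Measure UnitAddCircle} [IsProbabilityMeasure μ]
    (hp : MeasurePreserving (fun x : UnitAddCircle => p • x) μ μ)
    (herg : Ergodic (fun z : UnitAddCircle × UnitAddCircle => (p • z.1, p • z.2)) (μ.prod μ)) :
    Ergodic (fun x : UnitAddCircle => p • x) μ := by
  refine ⟨hp, ⟨fun {E} hE h1 => ?_⟩⟩
  have h2 : (fun z : UnitAddCircle × UnitAddCircle => (p • z.1, p • z.2)) ⁻¹' (E ×ˢ univ) = E ×ˢ univ := by
    ext z
    have := Set.ext_iff.1 h1 z.1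
    simpa using this
  have h := herg.toPreErgodic.prob_eq_zero_or_one (hE.prod MeasurableSet.univ) h2
  rw [Measure.prod_prod, measure_univ, mul_one] at h
  rw [Filter.eventuallyConst_set']
  rcases h with h | h
  · left
    exact ae_eq_empty.2 h
  · right
    rw [ae_eq_univ]
    exact (prob_compl_eq_zero_iff hE).2 h

/-- weak mixing -/
theorem wm_of_erg {p : ℕ} {μ : Measure UnitAddCircle} [IsProbabilityMeasure μ]
    (hp : MeasurePreserving (fun x : UnitAddCircle => p • x) μ μ)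
    (herg : Ergodic (fun z : UnitAddCircle × UnitAddCircle => (p • z.1, p • z.2)) (μ.prod μ)) : WM p μ := by
  intro a
  have h1 := mean1 (erg_of_prod hp herg) a (-a)
  have h2 := mean2 herg a (-a)
  have h3 := mean_of_sq (fun n => norm_nonneg _) (dev_of _ _ h1 h2)
  refine h3.congr fun N => ?_
  congr 1
  refine Finset.sum_congr rfl fun n _ => ?_
  rw [co_neg]
  congr 3
  ring

/-- the law of the difference of two independent points -/
noncomputable def diff (μ : Measure UnitAddCircle) : Measure UnitAddCircle :=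
  (μ.prod μ).map fun z => z.1 - z.2

instance (μ : Measure UnitAddCircle) [IsProbabilityMeasure μ] : IsProbabilityMeasure (diff μ) :=
  Measure.isProbabilityMeasure_map (by fun_prop)

lemma co_diff (μ : Measure UnitAddCircle) [IsProbabilityMeasure μ] (n : ℤ) :
    co (diff μ) n = ((‖co μ n‖ ^ 2 : ℝ) : ℂ) := by
  rw [← sq_coeff]
  unfold co diff
  rw [integral_map (by fun_prop) (map_continuous (fourier n)).aestronglyMeasurable]

lemma diff_mp {p : ℕ} {μ : Measure UnitAddCircle} [IsProbabilityMeasure μ]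
    (hp : MeasurePreserving (fun x : UnitAddCircle => p • x) μ μ) :
    MeasurePreserving (fun x : UnitAddCircle => p • x) (diff μ) (diff μ) := by
  refine ⟨hp.measurable, ?_⟩
  have h1 := (hp.prod hp).map_eq
  unfold diff
  rw [Measure.map_map hp.measurable (by fun_prop)]
  conv_rhs => rw [← h1]
  rw [Measure.map_map (by fun_prop) (hp.measurable.prodMap hp.measurable)]
  congr 1
  funext z
  show p • (z.1 - z.2) = p • z.1 - p • z.2
  rw [smul_sub]

lemma diff_wm {p : ℕ} {μ : Measure UnitAddCircle} [IsProbabilityMeasure μ] (hw : WM p μ) :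
    WM p (diff μ) := by
  intro a
  have h1 := (hw a).const_mul 2
  rw [mul_zero] at h1
  refine squeeze_zero (fun N => mul_nonneg (inv_nonneg.2 (Nat.cast_nonneg N))
    (Finset.sum_nonneg fun n _ => norm_nonneg _)) (fun N => ?_) h1
  rw [mul_left_comm]
  have hN0 : (0 : ℝ) ≤ (N : ℝ)⁻¹ := by positivity
  refine mul_le_mul_of_nonneg_left ?_ hN0
  rw [Finset.mul_sum]
  refine Finset.sum_le_sum fun h _ => ?_
  rw [co_diff, co_diff]
  set x := co μ (a * ((p : ℤ) ^ h - 1))
  set y := co μ a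
  have e : ((‖x‖ ^ 2 : ℝ) : ℂ) - ((‖y‖ ^ 2 : ℝ) : ℂ) * (starRingEnd ℂ) ((‖y‖ ^ 2 : ℝ) : ℂ) =
      ((‖x‖ ^ 2 - ‖y * (starRingEnd ℂ) y‖ ^ 2 : ℝ) : ℂ) := by
    rw [Complex.conj_ofReal, norm_mul, Complex.norm_conj]
    push_cast
    ring
  rw [e, Complex.norm_real, Real.norm_eq_abs]
  have hx : ‖x‖ ≤ 1 := co_norm μ _
  have hy : ‖y * (starRingEnd ℂ) y‖ ≤ 1 := by
    rw [norm_mul, Complex.norm_conj]
    exact mul_le_one₀ (co_norm μ _) (norm_nonneg _) (co_norm μ _)
  have h2 : |‖x‖ - ‖y * (starRingEnd ℂ) y‖| ≤ ‖x - y * (starRingEnd ℂ) y‖ := abs_norm_sub_norm_le _ _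
  have e2 : ‖x‖ ^ 2 - ‖y * (starRingEnd ℂ) y‖ ^ 2 =
      (‖x‖ - ‖y * (starRingEnd ℂ) y‖) * (‖x‖ + ‖y * (starRingEnd ℂ) y‖) := by ring
  rw [e2, abs_mul, abs_of_nonneg (by positivity : 0 ≤ ‖x‖ + ‖y * (starRingEnd ℂ) y‖)]
  nlinarith [norm_nonneg (x - y * (starRingEnd ℂ) y), norm_nonneg x, norm_nonneg (y * (starRingEnd ℂ) y)]

/-- **the deviations along polynomials vanish in square mean** -/
theorem dev {p : ℕ} {μ : Measure UnitAddCircle} [IsProbabilityMeasure μ]
    (hp : MeasurePreserving (fun x : UnitAddCircle => p • x) μ μ) (hw : WM p μ) (d : ℕ) (c : ℕ → ℤ) :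
    Tendsto (fun N : ℕ => (N : ℝ)⁻¹ * ∑ n ∈ Finset.range N,
      ‖co μ (G p d c n) - ∏ i ∈ Finset.range d, co μ (c i)‖ ^ 2) atTop (𝓝 0) := by
  refine dev_of _ _ (avg hp hw d c) ?_
  have h1 := avg (diff_mp hp) (diff_wm hw) d c
  have h2 := (Complex.continuous_re.tendsto _).comp h1
  have e1 : (∏ i ∈ Finset.range d, co (diff μ) (c i)).re = ‖∏ i ∈ Finset.range d, co μ (c i)‖ ^ 2 := by
    simp_rw [co_diff]
    rw [← Complex.ofReal_prod, Complex.ofReal_re, norm_prod, Finset.prod_pow]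
  rw [e1] at h2
  refine h2.congr fun N => ?_
  show ((N : ℂ)⁻¹ * ∑ n ∈ Finset.range N, co (diff μ) (G p d c n)).re = _
  simp_rw [co_diff]
  rw [← Complex.ofReal_natCast, ← Complex.ofReal_inv, ← Complex.ofReal_sum, ← Complex.ofReal_mul,
    Complex.ofReal_re]

end Pool.Agent.R202.PM
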