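import Pool.Agent.R202.PMb

/-!
Rigidity of atomless measures whose coefficients satisfy a multiplicative inequality; densities.
-/

set_option autoImplicit false

open MeasureTheory Filter Topology Set
open scoped InnerProductSpace ENNReal

namespace Pool.Agent.R202.PM

open Pool.Agent.R202.LC (norm_fourier fourier_nsmul coeff_le coeff_pow)

lemma norm_zsmul {k : ℤ} {u : UnitAddCircle} (h : |(k : ℝ)| * ‖u‖ ≤ 1 / 2) : ‖k • u‖ = |(k : ℝ)| * ‖u‖ := by
  obtain ⟨y, rfl⟩ := QuotientAddGroup.mk_surjective u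
  set x : ℝ := y - round y with hx
  have hxy : ((x : ℝ) : UnitAddCircle) = ((y : ℝ) : UnitAddCircle) := by
    rw [hx, AddCircle.coe_sub]
    have : (((round y : ℤ) : ℝ) : UnitAddCircle) = 0 := by
      rw [AddCircle.coe_eq_zero_iff]
      exact ⟨round y, by simp⟩
    rw [this, sub_zero]
  have hn : ‖((y : ℝ) : UnitAddCircle)‖ = |x| := by
    rw [UnitAddCircle.norm_eq]
  have h' : |(k : ℝ)| * ‖((y : ℝ) : UnitAddCircle)‖ ≤ 1 / 2 := h
  show ‖k • ((y : ℝ) : UnitAddCircle)‖ = |(k : ℝ)| * ‖((y : ℝ) : UnitAddCircle)‖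
  rw [hn] at h' ⊢
  rw [← hxy, ← AddCircle.coe_zsmul]
  have h2 : ‖((k • x : ℝ) : UnitAddCircle)‖ = |k • x| := by
    rw [AddCircle.norm_coe_eq_abs_iff _ one_ne_zero, abs_one, zsmul_eq_mul, abs_mul]
    exact h'
  rw [h2, zsmul_eq_mul, abs_mul]

/-- a divisibility chain with bounded ratios on which the point tends to zero reaches zero -/
lemma chain_zero {b c : ℤ} (hb : b ≠ 0) (hc : c ≠ 0) {s : ℕ → ℤ}
    (hs : ∀ m, s (m + 1) = s m * b ∨ s (m + 1) = s m * c) {u : UnitAddCircle}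
    (hu : Tendsto (fun m => s m • u) atTop (𝓝 0)) : ∃ m, s m • u = 0 := by
  have hb1 : (1 : ℝ) ≤ |(b : ℝ)| := by exact_mod_cast Int.one_le_abs hb
  have hc1 : (1 : ℝ) ≤ |(c : ℝ)| := by exact_mod_cast Int.one_le_abs hc
  have hn := tendsto_norm_zero.comp hu
  have hr : (0 : ℝ) < 1 / (2 * (|(b : ℝ)| + |(c : ℝ)|)) := by positivity
  obtain ⟨m0, hm0⟩ := (hn.eventually_lt_const hr).exists_forall_of_atTop
  have hstep : ∀ m, m0 ≤ m → ‖s m • u‖ ≤ ‖s (m + 1) • u‖ := by
    intro m hm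
    have h1 : ‖s m • u‖ < 1 / (2 * (|(b : ℝ)| + |(c : ℝ)|)) := hm0 m hm
    rw [lt_div_iff₀ (by positivity)] at h1
    have h0 := norm_nonneg (s m • u)
    rcases hs m with h | h
    · have e : s (m + 1) • u = b • (s m • u) := by rw [h, mul_comm, mul_smul]
      rw [e, norm_zsmul (k := b) (u := s m • u) (by nlinarith)]
      nlinarith
    · have e : s (m + 1) • u = c • (s m • u) := by rw [h, mul_comm, mul_smul]
      rw [e, norm_zsmul (k := c) (u := s m • u) (by nlinarith)]
      nlinarith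
  have hmono : ∀ k, ‖s m0 • u‖ ≤ ‖s (m0 + k) • u‖ := by
    intro k
    induction k with
    | zero => exact le_rfl
    | succ k ih => exact ih.trans (hstep (m0 + k) (by omega))
  refine ⟨m0, ?_⟩
  have h2 : ‖s m0 • u‖ ≤ 0 := by
    refine ge_of_tendsto hn ?_
    filter_upwards [eventually_ge_atTop m0] with m hm
    obtain ⟨k, rfl⟩ := Nat.exists_eq_add_of_le hm
    exact hmono k
  exact norm_le_zero_iff.1 h2

lemma bern {x α : ℝ} (hx0 : 0 ≤ x) (hx1 : x ≤ 1) (hα : 0 < α) {K : ℕ} (hK : 1 ≤ K) (h : α ≤ x ^ K) :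
    1 - x ≤ 1 / (α * K) := by
  have h1 : 1 + (K : ℝ) * (1 - x) ≤ (1 + (1 - x)) ^ K := one_add_mul_le_pow (by linarith) K
  have h2 : (1 + (1 - x)) ^ K * x ^ K ≤ 1 := by
    rw [← mul_pow]
    exact pow_le_one₀ (by nlinarith) (by nlinarith [sq_nonneg (x - 1)])
  have hK0 : (0 : ℝ) < K := by exact_mod_cast hK
  have h3 : (1 + (K : ℝ) * (1 - x)) * α ≤ 1 := by
    have h4 : 0 ≤ 1 + (K : ℝ) * (1 - x) := by nlinarith
    have h5 : 0 ≤ x ^ K := by positivity
    nlinarith [mul_le_mul_of_nonneg_left h h4, mul_le_mul_of_nonneg_right h1 h5]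
  rw [le_div_iff₀ (by positivity)]
  nlinarith

/-- **Rigidity.** -/
theorem chain_rigid {μ : Measure UnitAddCircle} [IsProbabilityMeasure μ] (hna : ∀ x, μ {x} = 0)
    {b c : ℤ} (hb : b ≠ 0) (hc : c ≠ 0)
    (h : ∀ a : ℤ, ‖co μ a‖ ≤ ‖co μ (a * b)‖ * ‖co μ (a * c)‖) {a : ℤ} (ha : a ≠ 0) : co μ a = 0 := by
  classical
  by_contra h0
  set α := ‖co μ a‖ with hα
  have hα0 : 0 < α := norm_pos_iff.2 h0
  set step : ℤ → ℤ := fun n => if ‖co μ (n * c)‖ ≤ ‖co μ (n * b)‖ then n * b else n * c with hstep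
  set s : ℕ → ℤ := fun m => step^[m] a with hs
  have hs0 : s 0 = a := rfl
  have hss : ∀ m, s (m + 1) = step (s m) := fun m => Function.iterate_succ_apply' step m a
  have hs1 : ∀ m, s (m + 1) = s m * b ∨ s (m + 1) = s m * c := by
    intro m
    rw [hss m]
    simp only [hstep]
    split_ifs
    · left; rfl
    · right; rfl
  have hsne : ∀ m, s m ≠ 0 := by
    intro m
    induction m with
    | zero => exact ha
    | succ m ih =>
      rcases hs1 m with e | e <;> rw [e]
      · exact mul_ne_zero ih hb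
      · exact mul_ne_zero ih hc
  have hsq : ∀ m, ‖co μ (s m)‖ ≤ ‖co μ (s (m + 1))‖ ^ 2 := by
    intro m
    refine (h (s m)).trans ?_
    rw [hss m]
    simp only [hstep]
    have h1 := norm_nonneg (co μ (s m * b))
    have h2 := norm_nonneg (co μ (s m * c))
    split_ifs with h3
    · nlinarith
    · push Not at h3
      nlinarith
  have hpow : ∀ m, α ≤ ‖co μ (s m)‖ ^ (2 ^ m) := by
    intro m
    induction m with
    | zero => simp [hs0, hα]
    | succ m ih =>
      refine ih.trans ((pow_le_pow_left₀ (norm_nonneg _) (hsq m) _).trans (le_of_eq ?_))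
      rw [← pow_mul, pow_succ, mul_comm]
  have ht : ∀ m, 1 - ‖co μ (s m)‖ ≤ 1 / (α * ((2 ^ m : ℕ) : ℝ)) := fun m =>
    bern (norm_nonneg _) (co_norm μ _) hα0 (Nat.one_le_two_pow) (hpow m)
  -- the functions `1 - Re e (s m z)`
  set f : ℕ → UnitAddCircle × UnitAddCircle → ℝ := fun m z => 1 - (fourier (s m) (z.1 - z.2) : ℂ).re with hf
  have hfc : ∀ m, Continuous (f m) := by
    intro m
    simp only [hf]
    refine continuous_const.sub (Complex.continuous_re.comp ?_)
    exact (map_continuous (fourier (s m))).comp (continuous_fst.sub continuous_snd)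
  have hf0 : ∀ m z, 0 ≤ f m z := by
    intro m z
    have h1 := Complex.re_le_norm (fourier (s m) (z.1 - z.2) : ℂ)
    rw [norm_fourier] at h1
    simp only [hf]
    linarith
  have hf2 : ∀ m z, f m z ≤ 2 := by
    intro m z
    have h1 := Complex.abs_re_le_norm (fourier (s m) (z.1 - z.2) : ℂ)
    rw [norm_fourier] at h1
    have h2 := (abs_le.1 h1).1
    simp only [hf]
    linarith
  have hfi : ∀ m, Integrable (f m) (μ.prod μ) := fun m =>
    Integrable.of_bound (hfc m).aestronglyMeasurable 2 (Eventually.of_forall fun z => by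
      rw [Real.norm_of_nonneg (hf0 m z)]; exact hf2 m z)
  have hint : ∀ m, ∫ z, f m z ∂(μ.prod μ) ≤ 2 / α * (1 / 2) ^ m := by
    intro m
    have hI : Integrable (fun z : UnitAddCircle × UnitAddCircle => (fourier (s m) (z.1 - z.2) : ℂ)) (μ.prod μ) :=
      Integrable.of_bound ((fourier (s m)).continuous.comp
        (continuous_fst.sub continuous_snd)).aestronglyMeasurable 1
        (Eventually.of_forall fun _ => (norm_fourier _ _).le)
    have e1 : ∫ z, f m z ∂(μ.prod μ) = 1 - ‖co μ (s m)‖ ^ 2 := by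
      have hI' : Integrable (fun z : UnitAddCircle × UnitAddCircle =>
        (fourier (s m) (z.1 - z.2) : ℂ).re) (μ.prod μ) := hI.re
      simp only [hf]
      rw [integral_sub (integrable_const _) hI', integral_const, probReal_univ, one_smul]
      congr 1
      have h1 := sq_coeff μ (s m)
      have h2 : ∫ z : UnitAddCircle × UnitAddCircle, (fourier (s m) (z.1 - z.2) : ℂ).re ∂(μ.prod μ) =
          (∫ z : UnitAddCircle × UnitAddCircle, (fourier (s m) (z.1 - z.2) : ℂ) ∂(μ.prod μ)).re :=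
        integral_re hI
      rw [h1, Complex.ofReal_re] at h2
      exact h2
    rw [e1]
    have h1 := ht m
    have h2 := norm_nonneg (co μ (s m))
    have h3 := co_norm μ (s m)
    have e2 : 2 / α * (1 / 2 : ℝ) ^ m = 2 * (1 / (α * ((2 ^ m : ℕ) : ℝ))) := by
      push_cast
      rw [one_div_pow]
      field_simp
    rw [e2]
    nlinarith
  have hlin : ∫⁻ z, ∑' m, ENNReal.ofReal (f m z) ∂(μ.prod μ) ≠ ⊤ := by
    rw [lintegral_tsum fun m => (hfc m).measurable.ennreal_ofReal.aemeasurable]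
    have h1 : ∀ m, ∫⁻ z, ENNReal.ofReal (f m z) ∂(μ.prod μ) ≤ ENNReal.ofReal (2 / α * (1 / 2) ^ m) := by
      intro m
      rw [← ofReal_integral_eq_lintegral_ofReal (hfi m) (Eventually.of_forall (hf0 m))]
      exact ENNReal.ofReal_le_ofReal (hint m)
    have hsum : Summable fun m : ℕ => 2 / α * (1 / 2 : ℝ) ^ m :=
      (summable_geometric_of_lt_one (by norm_num) (by norm_num)).mul_left _
    refine ne_top_of_le_ne_top ?_ (ENNReal.tsum_le_tsum h1)
    exact hsum.tsum_ofReal_ne_top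
  have hmeas : Measurable fun z => ∑' m, ENNReal.ofReal (f m z) :=
    Measurable.tsum fun m => (hfc m).measurable.ennreal_ofReal
  have hae := ae_lt_top hmeas hlin
  -- the torsion points
  set Tor : Set UnitAddCircle := {u | ∃ m, s m • u = 0} with hTor
  have hcount : Tor.Countable := by
    have e : Tor = ⋃ m : ℕ, {u : UnitAddCircle | s m • u = 0} := by
      ext u
      simp only [hTor, mem_ofPred_eq, mem_iUnion]
    rw [e]
    refine countable_iUnion fun m => Set.Finite.countable ?_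
    refine (AddCircle.finite_torsion (1 : ℝ) (Int.natAbs_pos.2 (hsne m))).subset fun t ht => ?_
    have h1 : s m • t = 0 := ht
    show (s m).natAbs • t = 0
    rcases Int.natAbs_eq (s m) with h | h
    · rw [h, natCast_zsmul] at h1
      exact h1
    · rw [h, neg_smul, natCast_zsmul, neg_eq_zero] at h1
      exact h1
  have hTm : MeasurableSet {z : UnitAddCircle × UnitAddCircle | z.1 - z.2 ∈ Tor} :=
    (measurable_fst.sub measurable_snd) hcount.measurableSet
  have hall : ∀ᵐ z ∂(μ.prod μ), z.1 - z.2 ∈ Tor := by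
    filter_upwards [hae] with z hz
    have h1 := ENNReal.tendsto_atTop_zero_of_tsum_ne_top hz.ne
    have h2 : Tendsto (fun m => f m z) atTop (𝓝 0) := by
      have h3 := (ENNReal.tendsto_toReal ENNReal.zero_ne_top).comp h1
      rw [ENNReal.toReal_zero] at h3
      refine h3.congr fun m => ?_
      show (ENNReal.ofReal (f m z)).toReal = _
      rw [ENNReal.toReal_ofReal (hf0 m z)]
    have h4 : Tendsto (fun m => (fourier (s m) (z.1 - z.2) : ℂ)) atTop (𝓝 1) := by
      rw [tendsto_iff_norm_sub_tendsto_zero]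
      have h5 : ∀ m, ‖(fourier (s m) (z.1 - z.2) : ℂ) - 1‖ = Real.sqrt (2 * f m z) := by
        intro m
        have h6 : ‖(fourier (s m) (z.1 - z.2) : ℂ)‖ ^ 2 = 1 := by rw [norm_fourier]; norm_num
        rw [← Complex.normSq_eq_norm_sq, Complex.normSq_apply] at h6
        symm
        rw [Real.sqrt_eq_iff_mul_self_eq (by have := hf0 m z; linarith) (norm_nonneg _), ← sq,
          ← Complex.normSq_eq_norm_sq, Complex.normSq_apply]
        simp only [Complex.sub_re, Complex.sub_im, Complex.one_re, Complex.one_im, hf]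
        nlinarith
      simp_rw [h5]
      have h7 := (h2.const_mul 2).sqrt
      rw [mul_zero, Real.sqrt_zero] at h7
      exact h7
    have h8 : Tendsto (fun m => AddCircle.toCircle (s m • (z.1 - z.2))) atTop (𝓝 (1 : Circle)) := by
      refine tendsto_iff_dist_tendsto_zero.2 ?_
      refine (tendsto_iff_dist_tendsto_zero.1 h4).congr fun m => ?_
      rw [fourier_apply]
      rfl
    have h9 : Tendsto (fun m => s m • (z.1 - z.2)) atTop (𝓝 0) := by
      have h10 := ((AddCircle.homeomorphCircle (T := (1 : ℝ)) one_ne_zero).symm.continuous.tendsto 1).comp h8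
      have e0 : (AddCircle.homeomorphCircle (T := (1 : ℝ)) one_ne_zero).symm 1 = 0 := by
        rw [Homeomorph.symm_apply_eq, AddCircle.homeomorphCircle_apply, AddCircle.toCircle_zero]
      rw [e0] at h10
      refine h10.congr fun m => ?_
      show (AddCircle.homeomorphCircle (T := (1 : ℝ)) one_ne_zero).symm
        (AddCircle.toCircle (s m • (z.1 - z.2))) = _
      rw [Homeomorph.symm_apply_eq, AddCircle.homeomorphCircle_apply]
    exact chain_zero hb hc hs1 h9
  have hnull : (μ.prod μ) {z : UnitAddCircle × UnitAddCircle | z.1 - z.2 ∈ Tor} = 0 := by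
    rw [Measure.measure_prod_null hTm]
    refine Eventually.of_forall fun x => ?_
    have : NullSingletonClass μ := ⟨hna⟩
    have hc2 : (Prod.mk x ⁻¹' {z : UnitAddCircle × UnitAddCircle | z.1 - z.2 ∈ Tor}).Countable := by
      have e : Prod.mk x ⁻¹' {z : UnitAddCircle × UnitAddCircle | z.1 - z.2 ∈ Tor} ⊆
          (fun t => x - t) '' Tor := by
        intro y hy
        exact ⟨x - y, hy, sub_sub_cancel x y⟩
      exact (hcount.image _).mono e
    exact hc2.measure_zero μ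
  have hone : (μ.prod μ) {z : UnitAddCircle × UnitAddCircle | z.1 - z.2 ∈ Tor} = 1 := by
    have := prob_compl_eq_zero_iff (μ := μ.prod μ) hTm
    exact this.1 hall
  rw [hnull] at hone
  exact zero_ne_one hone

/-- positive upper density -/
def PosDens (D : Set ℕ) : Prop :=
  ∃ δ : ℝ, 0 < δ ∧ ∃ᶠ N : ℕ in atTop, δ * N ≤ ({n : ℕ | n < N ∧ n ∈ D}.ncard : ℝ)

/-- upper density one -/
def FullDens (D : Set ℕ) : Prop :=
  ∀ δ : ℝ, δ < 1 → ∃ᶠ N : ℕ in atTop, δ * N ≤ ({n : ℕ | n < N ∧ n ∈ D}.ncard : ℝ)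

lemma ncard_eq (D : Set ℕ) [DecidablePred (· ∈ D)] (N : ℕ) :
    ({n : ℕ | n < N ∧ n ∈ D}.ncard : ℝ) = ∑ n ∈ Finset.range N, if n ∈ D then (1 : ℝ) else 0 := by
  have h1 : {n : ℕ | n < N ∧ n ∈ D} = (((Finset.range N).filter (· ∈ D) : Finset ℕ) : Set ℕ) := by
    ext k
    simp only [mem_ofPred_eq, Finset.coe_filter, Finset.mem_range]
  rw [h1, Set.ncard_coe_finset, Finset.card_filter]
  push_cast
  rfl

lemma eq_of_dens {x : ℕ → ℂ} {A B : ℂ}
    (h : Tendsto (fun N : ℕ => (N : ℝ)⁻¹ * ∑ n ∈ Finset.range N, ‖x n - A‖ ^ 2) atTop (𝓝 0))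
    {D : Set ℕ} (hD : PosDens D) (hx : ∀ n ∈ D, x n = B) : B = A := by
  classical
  obtain ⟨δ, hδ, hfr⟩ := hD
  by_contra hne
  have hpos : 0 < ‖B - A‖ := norm_pos_iff.2 (sub_ne_zero.2 hne)
  obtain ⟨N, hN, hNA, hN1⟩ := (hfr.and_eventually ((h.eventually_lt_const
    (show 0 < ‖B - A‖ ^ 2 * δ by positivity)).and (eventually_gt_atTop 0))).exists
  have hN0 : (0 : ℝ) < N := by exact_mod_cast hN1
  rw [ncard_eq] at hN
  have h1 : ‖B - A‖ ^ 2 * ∑ n ∈ Finset.range N, (if n ∈ D then (1 : ℝ) else 0) ≤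
      ∑ n ∈ Finset.range N, ‖x n - A‖ ^ 2 := by
    rw [Finset.mul_sum]
    refine Finset.sum_le_sum fun n _ => ?_
    by_cases hn : n ∈ D
    · rw [if_pos hn, mul_one, hx n hn]
    · rw [if_neg hn, mul_zero]
      exact sq_nonneg _
  rw [inv_mul_lt_iff₀ hN0] at hNA
  have h2 : ‖B - A‖ ^ 2 * (δ * N) ≤ ‖B - A‖ ^ 2 * ∑ n ∈ Finset.range N, (if n ∈ D then (1 : ℝ) else 0) :=
    mul_le_mul_of_nonneg_left hN (by positivity)
  nlinarith

lemma eq_of_full {x : ℕ → ℂ} {A B : ℂ} (hx1 : ∀ n, ‖x n‖ ≤ 1) (hB1 : ‖B‖ ≤ 1)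
    (h : Tendsto (fun N : ℕ => (N : ℂ)⁻¹ * ∑ n ∈ Finset.range N, x n) atTop (𝓝 A))
    {D : Set ℕ} (hD : FullDens D) (hx : ∀ n ∈ D, x n = B) : B = A := by
  classical
  by_contra hne
  have hpos : 0 < ‖B - A‖ := norm_pos_iff.2 (sub_ne_zero.2 hne)
  obtain ⟨N, hN, hNA, hN1⟩ := ((hD (1 - ‖B - A‖ / 8) (by linarith)).and_eventually
    (((Metric.tendsto_nhds.1 h) (‖B - A‖ / 2) (by positivity)).and (eventually_gt_atTop 0))).exists
  have hN0 : (0 : ℝ) < N := by exact_mod_cast hN1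
  have hNC : (N : ℂ) ≠ 0 := by exact_mod_cast hN1.ne'
  rw [ncard_eq] at hN
  have h1 : ‖∑ n ∈ Finset.range N, (x n - B)‖ ≤
      2 * (N - ∑ n ∈ Finset.range N, (if n ∈ D then (1 : ℝ) else 0)) := by
    have e : (N : ℝ) - ∑ n ∈ Finset.range N, (if n ∈ D then (1 : ℝ) else 0) =
        ∑ n ∈ Finset.range N, (1 - if n ∈ D then (1 : ℝ) else 0) := by
      rw [Finset.sum_sub_distrib, Finset.sum_const, Finset.card_range, nsmul_eq_mul, mul_one]
    rw [e, Finset.mul_sum]
    refine (norm_sum_le _ _).trans (Finset.sum_le_sum fun n _ => ?_)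
    by_cases hn : n ∈ D
    · rw [if_pos hn, hx n hn, sub_self, norm_zero, sub_self, mul_zero]
    · rw [if_neg hn, sub_zero, mul_one]
      refine (norm_sub_le _ _).trans ?_
      linarith [hx1 n]
  have h2 : (N : ℂ)⁻¹ * ∑ n ∈ Finset.range N, x n - B = (N : ℂ)⁻¹ * ∑ n ∈ Finset.range N, (x n - B) := by
    rw [Finset.sum_sub_distrib, Finset.sum_const, Finset.card_range, nsmul_eq_mul, mul_sub, ← mul_assoc,
      inv_mul_cancel₀ hNC, one_mul]
  have h3 : ‖(N : ℂ)⁻¹ * ∑ n ∈ Finset.range N, x n - B‖ ≤ ‖B - A‖ / 4 := by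
    rw [h2, norm_mul, norm_inv, Complex.norm_natCast, inv_mul_le_iff₀ hN0]
    refine h1.trans ?_
    nlinarith
  rw [dist_eq_norm] at hNA
  have h4 : ‖B - A‖ ≤ ‖(N : ℂ)⁻¹ * ∑ n ∈ Finset.range N, x n - A‖ +
      ‖(N : ℂ)⁻¹ * ∑ n ∈ Finset.range N, x n - B‖ := by
    have := norm_sub_le ((N : ℂ)⁻¹ * ∑ n ∈ Finset.range N, x n - A)
      ((N : ℂ)⁻¹ * ∑ n ∈ Finset.range N, x n - B)
    rwa [sub_sub_sub_cancel_left] at this
  linarith

lemma co_map (μ : Measure UnitAddCircle) (m n : ℤ) :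
    co (μ.map fun x : UnitAddCircle => m • x) n = co μ (n * m) := by
  unfold co
  rw [integral_map (continuous_zsmul m).measurable.aemeasurable
    (fourier n).continuous.aestronglyMeasurable]
  refine integral_congr_ae (Eventually.of_forall fun x => ?_)
  show (fourier n (m • x) : ℂ) = _
  rw [fourier_apply, fourier_apply, mul_smul]

lemma G_smul (p d : ℕ) (c : ℕ → ℤ) (n : ℕ) (a : ℤ) : a * G p d c n = G p d (fun i => a * c i) n := by
  unfold G
  rw [Finset.mul_sum]
  exact Finset.sum_congr rfl fun i _ => by ring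

/-- identification of the image, one parameter -/
theorem image_one {p : ℕ} {μ : Measure UnitAddCircle} [IsProbabilityMeasure μ]
    (hp : MeasurePreserving (fun x : UnitAddCircle => p • x) μ μ) (hw : WM p μ) (d : ℕ) (c : ℕ → ℤ)
    {ν : Measure UnitAddCircle}
    (hD : PosDens {n | μ.map (fun x : UnitAddCircle => G p d c n • x) = ν}) (a : ℤ) :
    co ν a = ∏ i ∈ Finset.range d, co μ (a * c i) := by
  refine eq_of_dens (dev hp hw d fun i => a * c i) hD fun n hn => ?_
  have h1 : μ.map (fun x : UnitAddCircle => G p d c n • x) = ν := hn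
  rw [← h1, co_map, G_smul]

/-- two parameters: the means over the second parameter of the products -/
theorem dev_two {q : ℕ} {μ : Measure UnitAddCircle} [IsProbabilityMeasure μ]
    (hq : MeasurePreserving (fun x : UnitAddCircle => q • x) μ μ) (hw : WM q μ) (d e : ℕ)
    (c : ℕ → ℕ → ℤ) :
    Tendsto (fun N : ℕ => (N : ℝ)⁻¹ * ∑ m ∈ Finset.range N,
      ‖∏ i ∈ Finset.range d, co μ (G q e (c i) m) -
        ∏ i ∈ Finset.range d, ∏ j ∈ Finset.range e, co μ (c i j)‖ ^ 2) atTop (𝓝 0) := by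
  have h1 : Tendsto (fun N : ℕ => ∑ i ∈ Finset.range d, (N : ℝ)⁻¹ * ∑ m ∈ Finset.range N,
      ‖co μ (G q e (c i) m) - ∏ j ∈ Finset.range e, co μ (c i j)‖ ^ 2) atTop
      (𝓝 (∑ _i ∈ Finset.range d, (0 : ℝ))) := tendsto_finsetSum _ fun i _ => dev hq hw e (c i)
  have h2 := h1.const_mul (d : ℝ)
  rw [Finset.sum_const_zero, mul_zero] at h2
  refine squeeze_zero (fun N => mul_nonneg (inv_nonneg.2 (Nat.cast_nonneg N))
    (Finset.sum_nonneg fun n _ => sq_nonneg _)) (fun N => ?_) h2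
  have hN0 : (0 : ℝ) ≤ (N : ℝ)⁻¹ := by positivity
  rw [← Finset.mul_sum, mul_left_comm, Finset.sum_comm]
  refine mul_le_mul_of_nonneg_left ?_ hN0
  rw [Finset.mul_sum]
  refine Finset.sum_le_sum fun m _ => ?_
  have h3 := prod_sub (Finset.range d) (fun i => co μ (G q e (c i) m))
    (fun i => ∏ j ∈ Finset.range e, co μ (c i j)) (fun i => co_norm μ _) (fun i => by
      rw [norm_prod]
      exact Finset.prod_le_one (fun _ _ => norm_nonneg _) fun _ _ => co_norm μ _)
  have h4 := sq_sum_le_card_mul_sum_sq (s := Finset.range d)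
    (f := fun i => ‖co μ (G q e (c i) m) - ∏ j ∈ Finset.range e, co μ (c i j)‖)
  rw [Finset.card_range] at h4
  exact (pow_le_pow_left₀ (norm_nonneg _) h3 2).trans h4

/-- the product of two of the factors bounds the product -/
lemma prod_le_two {ι : Type*} [DecidableEq ι] (s : Finset ι) (f : ι → ℝ) (h0 : ∀ i, 0 ≤ f i)
    (h1 : ∀ i, f i ≤ 1) {k l : ι} (hk : k ∈ s) (hl : l ∈ s) (hkl : k ≠ l) :
    ∏ i ∈ s, f i ≤ f k * f l := by
  rw [← Finset.mul_prod_erase s f hk]
  refine mul_le_mul_of_nonneg_left ?_ (h0 k)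
  rw [← Finset.mul_prod_erase (s.erase k) f (Finset.mem_erase.2 ⟨hkl.symm, hl⟩)]
  refine mul_le_of_le_one_right (h0 l) ?_
  exact Finset.prod_le_one (fun i _ => h0 i) fun i _ => h1 i

end Pool.Agent.R202.PM
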