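import Mathlib

/-!
Unique ergodicity of irrational rotations, for finite measures on the circle and on `[0, 1)`.
-/

set_option autoImplicit false

open MeasureTheory Filter Topology Set
open scoped ENNReal BoundedContinuousFunction

namespace Pool.Agent.R202

/-- trigonometric approximation -/
lemma trig_approx (f : C(UnitAddCircle, ℂ)) {ε : ℝ} (hε : 0 < ε) :
    ∃ (M : Finset ℤ) (c : ℤ → ℂ), ∀ x, ‖f x - ∑ m ∈ M, c m * fourier m x‖ ≤ ε := by
  have hmem : f ∈ (Submodule.span ℂ (range (fourier (T := (1 : ℝ))))).topologicalClosure := by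
    rw [span_fourier_closure_eq_top]
    exact Submodule.mem_top
  rw [← SetLike.mem_coe, Submodule.topologicalClosure_coe] at hmem
  obtain ⟨g, hg, hfg⟩ := Metric.mem_closure_iff.1 hmem ε hε
  rw [SetLike.mem_coe] at hg
  obtain ⟨c, hc⟩ := (Finsupp.mem_span_range_iff_exists_finsupp).1 hg
  refine ⟨c.support, c, fun x => ?_⟩
  have e : ∑ m ∈ c.support, c m * fourier m x = g x := by
    rw [← hc, Finsupp.sum, ContinuousMap.coe_sum, Finset.sum_apply]
    rfl
  rw [e]
  have h1 : ‖(f - g) x‖ ≤ ‖f - g‖ := ContinuousMap.norm_coe_le_norm _ _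
  rw [dist_eq_norm] at hfg
  exact h1.trans hfg.le

lemma integrable_cont (μ : Measure UnitAddCircle) [IsFiniteMeasure μ] (f : C(UnitAddCircle, ℂ)) :
    Integrable f μ := by
  have h := f.continuous.integrable_of_hasCompactSupport (μ := μ)
    (HasCompactSupport.of_compactSpace f)
  exact h

/-- A finite measure on the circle is determined by its Fourier coefficients. -/
theorem ext_fourier {μ ν : Measure UnitAddCircle} [IsFiniteMeasure μ] [IsFiniteMeasure ν]
    (h : ∀ m : ℤ, ∫ x, (fourier m x : ℂ) ∂μ = ∫ x, (fourier m x : ℂ) ∂ν) : μ = ν := by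
  have hmass : ∀ (κ : Measure UnitAddCircle) [IsFiniteMeasure κ] (f g : C(UnitAddCircle, ℂ)) (ε : ℝ),
      (∀ x, ‖f x - g x‖ ≤ ε) → ‖∫ x, f x ∂κ - ∫ x, g x ∂κ‖ ≤ ε * κ.real univ := by
    intro κ _ f g ε hε
    rw [← integral_sub (integrable_cont κ f) (integrable_cont κ g)]
    exact norm_integral_le_of_norm_le_const (Eventually.of_forall hε)
  have hC : ∀ f : C(UnitAddCircle, ℂ), ∫ x, f x ∂μ = ∫ x, f x ∂ν := by
    intro f
    by_contra hne
    have hpos : 0 < ‖∫ x, f x ∂μ - ∫ x, f x ∂ν‖ := norm_pos_iff.2 (sub_ne_zero.2 hne)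
    set D := ‖∫ x, f x ∂μ - ∫ x, f x ∂ν‖ with hD
    set V : ℝ := μ.real univ + ν.real univ + 1 with hV
    have hV0 : 0 < V := by
      have := measureReal_nonneg (μ := μ) (s := univ)
      have := measureReal_nonneg (μ := ν) (s := univ)
      linarith
    obtain ⟨M, c, hc⟩ := trig_approx f (ε := D / (2 * V)) (by positivity)
    set g : C(UnitAddCircle, ℂ) := ∑ m ∈ M, c m • fourier m with hg
    have hgx : ∀ x, g x = ∑ m ∈ M, c m * fourier m x := by
      intro x
      rw [hg, ContinuousMap.coe_sum, Finset.sum_apply]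
      rfl
    have h1 := hmass μ f g (D / (2 * V)) (fun x => by rw [hgx]; exact hc x)
    have h2 := hmass ν f g (D / (2 * V)) (fun x => by rw [hgx]; exact hc x)
    have h3 : ∫ x, g x ∂μ = ∫ x, g x ∂ν := by
      simp_rw [hgx]
      rw [integral_finsetSum _ (fun m _ => (integrable_cont μ (fourier m)).const_mul _),
        integral_finsetSum _ (fun m _ => (integrable_cont ν (fourier m)).const_mul _)]
      refine Finset.sum_congr rfl fun m _ => ?_
      rw [integral_const_mul, integral_const_mul, h m]
    have h4 : D ≤ D / (2 * V) * μ.real univ + D / (2 * V) * ν.real univ := by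
      calc D = ‖(∫ x, f x ∂μ - ∫ x, g x ∂μ) - (∫ x, f x ∂ν - ∫ x, g x ∂ν)‖ := by
            rw [hD, h3]; congr 1; ring
        _ ≤ _ := (norm_sub_le _ _).trans (add_le_add h1 h2)
    have h5 : D / (2 * V) * μ.real univ + D / (2 * V) * ν.real univ ≤ D / (2 * V) * V := by
      rw [← mul_add]
      exact mul_le_mul_of_nonneg_left (by linarith) (by positivity)
    have h6 : D / (2 * V) * V = D / 2 := by field_simp
    linarith
  refine ext_of_forall_integral_eq_of_IsFiniteMeasure fun f => ?_
  have h1 := hC ⟨fun x => ((f x : ℝ) : ℂ), Complex.continuous_ofReal.comp f.continuous⟩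
  simp only [ContinuousMap.coe_mk] at h1
  rw [integral_complex_ofReal, integral_complex_ofReal] at h1
  exact_mod_cast h1

/-- The Fourier coefficient of nonzero order of an invariant measure of an irrational rotation. -/
lemma coeff_zero {ν : Measure UnitAddCircle} [IsFiniteMeasure ν] {θ : ℝ} (hθ : Irrational θ)
    (hν : ν.map (fun x : UnitAddCircle => x + (θ : UnitAddCircle)) = ν) {n : ℤ} (hn : n ≠ 0) :
    ∫ x, (fourier n x : ℂ) ∂ν = 0 := by
  have h1 : ∫ x, (fourier n x : ℂ) ∂ν = (∫ x, (fourier n x : ℂ) ∂ν) * fourier n (θ : UnitAddCircle) := by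
    conv_lhs => rw [← hν]
    rw [integral_map (by fun_prop) (by
      exact ((fourier n).continuous.aestronglyMeasurable))]
    have e : ∀ x : UnitAddCircle, (fourier n (x + (θ : UnitAddCircle)) : ℂ)
        = fourier n x * fourier n (θ : UnitAddCircle) := by
      intro x
      rw [fourier_apply, fourier_apply, fourier_apply, smul_add, AddCircle.toCircle_add]
      simp
    simp_rw [e]
    rw [integral_mul_const]
  have h2 : (fourier n (θ : UnitAddCircle) : ℂ) ≠ 1 := by
    rw [fourier_coe_apply]
    intro h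
    rw [Complex.exp_eq_one_iff] at h
    obtain ⟨m, hm⟩ := h
    have h3 : ((n : ℝ) * θ : ℝ) = (m : ℝ) := by
      have hpi : (2 * (Real.pi : ℂ) * Complex.I) ≠ 0 := Complex.two_pi_I_ne_zero
      have h4 : (2 * (Real.pi : ℂ) * Complex.I) * ((n : ℂ) * (θ : ℂ))
          = (2 * (Real.pi : ℂ) * Complex.I) * (m : ℂ) := by
        have : (2 * (Real.pi : ℂ) * Complex.I * (n : ℂ) * (θ : ℂ) / ((1 : ℝ) : ℂ))
          = (m : ℂ) * (2 * (Real.pi : ℂ) * Complex.I) := hm
        rw [Complex.ofReal_one, div_one] at this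
        linear_combination this
      have h5 := mul_left_cancel₀ hpi h4
      exact_mod_cast h5
    have h6 : Irrational ((n : ℝ) * θ) := by
      exact hθ.intCast_mul hn
    rw [h3] at h6
    exact h6 ⟨(m : ℚ), by push_cast; rfl⟩
  have h3 : (∫ x, (fourier n x : ℂ) ∂ν) * (1 - fourier n (θ : UnitAddCircle)) = 0 := by
    linear_combination h1
  rcases mul_eq_zero.1 h3 with h | h
  · exact h
  · exact absurd (sub_eq_zero.1 h).symm h2

instance : IsFiniteMeasure (volume : Measure UnitAddCircle) := by
  infer_instance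

/-- Unique ergodicity of irrational rotations, finite measures. -/
theorem rot_unique {ν : Measure UnitAddCircle} [IsFiniteMeasure ν] {θ : ℝ} (hθ : Irrational θ)
    (hν : ν.map (fun x : UnitAddCircle => x + (θ : UnitAddCircle)) = ν) :
    ν = ν univ • (volume : Measure UnitAddCircle) := by
  have hfin : ν univ ≠ ⊤ := measure_ne_top _ _
  have : IsFiniteMeasure (ν univ • (volume : Measure UnitAddCircle)) := by
    constructor
    rw [Measure.smul_apply, smul_eq_mul]
    exact ENNReal.mul_lt_top hfin.lt_top (measure_lt_top _ _)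
  refine ext_fourier fun m => ?_
  by_cases hm : m = 0
  · subst hm
    simp [measureReal_def]
  · rw [coeff_zero hθ hν hm, integral_smul_measure]
    have : ∫ x, (fourier m x : ℂ) ∂(volume : Measure UnitAddCircle) = 0 := by
      refine coeff_zero (θ := Real.sqrt 2) irrational_sqrt_two ?_ hm
      exact (measurePreserving_add_right volume _).map_eq
    rw [this, smul_zero]

end Pool.Agent.R202
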