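import Mathlib
import Pool.Agent.R202.Rot
import Pool.Agent.R202.TM

/-!
# Multipliers `a p ^ i + b q ^ j`

For a probability measure `μ` on the circle which is ergodic for the action generated by `x ↦ p x` and
`x ↦ q x` the means of the Fourier coefficients `μ^(a p ^ i + b q ^ j)` over boxes of exponents
`(i, j)` converge to `μ^(a) μ^(b)`. Hence rigidity under the multipliers `p ^ i + q ^ j`.
-/

set_option autoImplicit false

open MeasureTheory Filter Topology Set
open scoped ENNReal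

namespace Pool.Agent.R202.STP

open Pool.Agent.R202.TM

lemma norm_fourier (n : ℤ) (x : UnitAddCircle) : ‖(fourier n x : ℂ)‖ = 1 := by
  rw [fourier_apply]
  exact Circle.norm_coe _

lemma fourier_nsmul (n : ℤ) (s : ℕ) (x : UnitAddCircle) :
    (fourier n (s • x) : ℂ) = fourier (n * s) x := by
  rw [fourier_apply, fourier_apply, mul_smul, natCast_zsmul]

lemma fourier_sub_pt (n : ℤ) (x y : UnitAddCircle) :
    (fourier n (x - y) : ℂ) = fourier n x * fourier (-n) y := by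
  rw [fourier_apply, fourier_apply, fourier_apply, ← Circle.coe_mul, ← AddCircle.toCircle_add,
    neg_smul, smul_sub, sub_eq_add_neg]

lemma iter_smul (p : ℕ) (i : ℕ) (x : UnitAddCircle) :
    (fun x : UnitAddCircle => p • x)^[i] x = (p ^ i) • x := by
  induction i with
  | zero => simp
  | succ i ih =>
    rw [Function.iterate_succ_apply', ih]
    show p • (p ^ i) • x = _
    rw [smul_smul, pow_succ']

lemma iter_smul2 (p : ℕ) (i : ℕ) (z : UnitAddCircle × UnitAddCircle) :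
    (fun z : UnitAddCircle × UnitAddCircle => (p • z.1, p • z.2))^[i] z =
      ((p ^ i) • z.1, (p ^ i) • z.2) := by
  induction i with
  | zero => simp
  | succ i ih =>
    rw [Function.iterate_succ_apply', ih]
    show (p • (p ^ i) • z.1, p • (p ^ i) • z.2) = _
    rw [smul_smul, smul_smul, pow_succ']

lemma sq_coeff (μ : Measure UnitAddCircle) [IsProbabilityMeasure μ] (m : ℤ) :
    ∫ z : UnitAddCircle × UnitAddCircle, (fourier m (z.1 - z.2) : ℂ) ∂(μ.prod μ) =
      ((‖∫ x, (fourier m x : ℂ) ∂μ‖ ^ 2 : ℝ) : ℂ) := by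
  simp_rw [fourier_sub_pt]
  rw [integral_prod_mul (fun x : UnitAddCircle => (fourier m x : ℂ)) (fun y : UnitAddCircle => (fourier (-m) y : ℂ))]
  have h1 : ∫ y, (fourier (-m) y : ℂ) ∂μ = (starRingEnd ℂ) (∫ y, (fourier m y : ℂ) ∂μ) := by
    rw [← integral_conj]
    refine integral_congr_ae (Eventually.of_forall fun y => ?_)
    exact fourier_neg
  rw [h1, Complex.mul_conj, Complex.normSq_eq_norm_sq]

lemma memLp_fourier (μ : Measure UnitAddCircle) [IsProbabilityMeasure μ] (n : ℤ) :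
    MemLp (fun x : UnitAddCircle => (fourier n x : ℂ)) 2 μ :=
  MemLp.of_bound (fourier n).continuous.aestronglyMeasurable 1
    (Eventually.of_forall fun x => (norm_fourier n x).le)

lemma memLp_fourier2 (μ : Measure UnitAddCircle) [IsProbabilityMeasure μ] (n : ℤ) :
    MemLp (fun z : UnitAddCircle × UnitAddCircle => (fourier n (z.1 - z.2) : ℂ)) 2 (μ.prod μ) :=
  MemLp.of_bound ((fourier n).continuous.comp (continuous_fst.sub continuous_snd)).aestronglyMeasurable 1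
    (Eventually.of_forall fun _ => (norm_fourier n _).le)

/-- a coefficient of modulus one is impossible for atomless measures -/
lemma coeff_ne_one (μ : Measure UnitAddCircle) [IsProbabilityMeasure μ] (hna : ∀ x, μ {x} = 0)
    {n : ℤ} (hn : n ≠ 0) : ∫ x, (fourier n x : ℂ) ∂μ ≠ 1 := by
  intro h
  have hi : Integrable (fun x : UnitAddCircle => (fourier n x : ℂ)) μ :=
    Integrable.of_bound (fourier n).continuous.aestronglyMeasurable 1
      (Eventually.of_forall fun x => (norm_fourier n x).le)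
  have hire : Integrable (fun x : UnitAddCircle => (fourier n x : ℂ).re) μ := hi.re
  have h1 : ∫ x, (1 - (fourier n x : ℂ).re) ∂μ = 0 := by
    rw [integral_sub (integrable_const _) hire, integral_const, probReal_univ, one_smul]
    have h2 : ∫ x, (fourier n x : ℂ).re ∂μ = (∫ x, (fourier n x : ℂ) ∂μ).re := by
      exact integral_re hi
    rw [h2, h]
    simp
  have h3 : (fun x : UnitAddCircle => 1 - (fourier n x : ℂ).re) =ᵐ[μ] 0 := by
    refine (integral_eq_zero_iff_of_nonneg (f := fun x : UnitAddCircle => 1 - (fourier n x : ℂ).re)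
      (fun x => ?_) ((integrable_const _).sub hire)).1 h1
    show 0 ≤ 1 - (fourier n x : ℂ).re
    have := Complex.re_le_norm (fourier n x : ℂ)
    rw [norm_fourier] at this
    linarith
  have hfin : {x : UnitAddCircle | n • x = 0}.Finite := by
    refine (AddCircle.finite_torsion (1 : ℝ) (Int.natAbs_pos.2 hn)).subset fun t ht => ?_
    have h1 : n • t = 0 := ht
    show n.natAbs • t = 0
    rcases Int.natAbs_eq n with h | h
    · rw [h, natCast_zsmul] at h1
      exact h1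
    · rw [h, neg_smul, natCast_zsmul, neg_eq_zero] at h1
      exact h1
  have : NullSingletonClass μ := ⟨hna⟩
  have h0 := hfin.measure_zero μ
  have h4 : ∀ᵐ x ∂μ, x ∈ {x : UnitAddCircle | n • x = 0} := by
    filter_upwards [h3] with x hx
    have hre : (fourier n x : ℂ).re = 1 := by
      have : 1 - (fourier n x : ℂ).re = 0 := hx
      linarith
    have hnorm := norm_fourier n x
    have him : (fourier n x : ℂ).im = 0 := by
      have h5 : ‖(fourier n x : ℂ)‖ ^ 2 = 1 := by rw [hnorm]; norm_num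
      rw [← Complex.normSq_eq_norm_sq, Complex.normSq_apply, hre] at h5
      nlinarith
    have h6 : (fourier n x : ℂ) = 1 := Complex.ext hre him
    rw [fourier_apply] at h6
    have h7 : AddCircle.toCircle (n • x) = AddCircle.toCircle (0 : UnitAddCircle) := by
      rw [AddCircle.toCircle_zero]
      exact Subtype.ext h6
    exact AddCircle.injective_toCircle one_ne_zero h7
  have h5 : μ {x : UnitAddCircle | n • x = 0} = 1 := by
    have := prob_compl_eq_zero_iff (μ := μ) hfin.measurableSet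
    exact this.1 h4
  rw [h0] at h5
  exact zero_ne_one h5

/-- The means of the coefficients. -/
theorem means_coeff (p q : ℕ) (μ : Measure UnitAddCircle) [IsProbabilityMeasure μ]
    (hip : MeasurePreserving (fun x : UnitAddCircle => p • x) μ μ)
    (hiq : MeasurePreserving (fun x : UnitAddCircle => q • x) μ μ)
    (herg : JointErg (fun x : UnitAddCircle => p • x) (fun x : UnitAddCircle => q • x) μ) (a b : ℤ) :
    Tendsto (fun K : ℕ × ℕ => (∑ i ∈ Finset.range K.1, ∑ j ∈ Finset.range K.2,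
      ∫ x, (fourier (a * (p : ℤ) ^ i + b * (q : ℤ) ^ j) x : ℂ) ∂μ) / ((K.1 : ℂ) * K.2)) atTop
      (𝓝 ((∫ x, (fourier a x : ℂ) ∂μ) * ∫ x, (fourier b x : ℂ) ∂μ)) := by
  have h := means herg hip hiq (fun x => by
    show p • q • x = q • p • x
    rw [smul_smul, smul_smul, mul_comm]) (memLp_fourier μ a) (memLp_fourier μ b)
  refine h.congr fun K => ?_
  congr 1
  refine Finset.sum_congr rfl fun i _ => Finset.sum_congr rfl fun j _ => ?_
  refine integral_congr_ae (Eventually.of_forall fun x => ?_)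
  show (fourier a ((fun x : UnitAddCircle => p • x)^[i] x) : ℂ) *
    fourier b ((fun x : UnitAddCircle => q • x)^[j] x) = _
  rw [iter_smul, iter_smul, fourier_nsmul, fourier_nsmul, ← fourier_add]
  push_cast
  rfl

/-- The means of the squares of the coefficients. -/
theorem means_sq (p q : ℕ) (μ : Measure UnitAddCircle) [IsProbabilityMeasure μ]
    (hip : MeasurePreserving (fun x : UnitAddCircle => p • x) μ μ)
    (hiq : MeasurePreserving (fun x : UnitAddCircle => q • x) μ μ)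
    (herg : JointErg (fun z : UnitAddCircle × UnitAddCircle => (p • z.1, p • z.2))
      (fun z : UnitAddCircle × UnitAddCircle => (q • z.1, q • z.2)) (μ.prod μ)) (a b : ℤ) :
    Tendsto (fun K : ℕ × ℕ => (∑ i ∈ Finset.range K.1, ∑ j ∈ Finset.range K.2,
      ‖∫ x, (fourier (a * (p : ℤ) ^ i + b * (q : ℤ) ^ j) x : ℂ) ∂μ‖ ^ 2) / ((K.1 : ℝ) * K.2)) atTop
      (𝓝 (‖∫ x, (fourier a x : ℂ) ∂μ‖ ^ 2 * ‖∫ x, (fourier b x : ℂ) ∂μ‖ ^ 2)) := by
  have h := means herg (hip.prod hip) (hiq.prod hiq) (fun z => by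
    show (p • q • z.1, p • q • z.2) = (q • p • z.1, q • p • z.2)
    rw [smul_smul, smul_smul, smul_smul, smul_smul, mul_comm]) (memLp_fourier2 μ a) (memLp_fourier2 μ b)
  rw [sq_coeff, sq_coeff] at h
  have h2 := (Complex.continuous_re.tendsto _).comp h
  rw [← Complex.ofReal_mul, Complex.ofReal_re] at h2
  refine h2.congr fun K => ?_
  show Complex.re _ = _
  have h3 : ∀ i j : ℕ, ∫ z : UnitAddCircle × UnitAddCircle,
      (fourier a (((fun z : UnitAddCircle × UnitAddCircle => (p • z.1, p • z.2))^[i] z).1 -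
        ((fun z : UnitAddCircle × UnitAddCircle => (p • z.1, p • z.2))^[i] z).2) : ℂ) *
      fourier b (((fun z : UnitAddCircle × UnitAddCircle => (q • z.1, q • z.2))^[j] z).1 -
        ((fun z : UnitAddCircle × UnitAddCircle => (q • z.1, q • z.2))^[j] z).2) ∂(μ.prod μ) =
      ((‖∫ x, (fourier (a * (p : ℤ) ^ i + b * (q : ℤ) ^ j) x : ℂ) ∂μ‖ ^ 2 : ℝ) : ℂ) := by
    intro i j
    rw [← sq_coeff]
    refine integral_congr_ae (Eventually.of_forall fun z => ?_)
    show (fourier a (((fun z : UnitAddCircle × UnitAddCircle => (p • z.1, p • z.2))^[i] z).1 -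
        ((fun z : UnitAddCircle × UnitAddCircle => (p • z.1, p • z.2))^[i] z).2) : ℂ) *
      fourier b (((fun z : UnitAddCircle × UnitAddCircle => (q • z.1, q • z.2))^[j] z).1 -
        ((fun z : UnitAddCircle × UnitAddCircle => (q • z.1, q • z.2))^[j] z).2) = _
    rw [iter_smul2, iter_smul2]
    show (fourier a ((p ^ i) • z.1 - (p ^ i) • z.2) : ℂ) * fourier b ((q ^ j) • z.1 - (q ^ j) • z.2) = _
    rw [← smul_sub, ← smul_sub, fourier_nsmul, fourier_nsmul, ← fourier_add]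
    push_cast
    rfl
  simp_rw [h3]
  rw [← Complex.ofReal_natCast, ← Complex.ofReal_natCast, ← Complex.ofReal_mul]
  rw [show (∑ i ∈ Finset.range K.1, ∑ j ∈ Finset.range K.2,
      ((‖∫ x, (fourier (a * (p : ℤ) ^ i + b * (q : ℤ) ^ j) x : ℂ) ∂μ‖ ^ 2 : ℝ) : ℂ)) =
      ((∑ i ∈ Finset.range K.1, ∑ j ∈ Finset.range K.2,
        ‖∫ x, (fourier (a * (p : ℤ) ^ i + b * (q : ℤ) ^ j) x : ℂ) ∂μ‖ ^ 2 : ℝ) : ℂ) by push_cast; rfl]
  rw [← Complex.ofReal_div, Complex.ofReal_re]

/-- joint ergodicity of the product implies joint ergodicity -/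
lemma erg_of_prod (p q : ℕ) (μ : Measure UnitAddCircle) [IsProbabilityMeasure μ]
    (herg : JointErg (fun z : UnitAddCircle × UnitAddCircle => (p • z.1, p • z.2))
      (fun z : UnitAddCircle × UnitAddCircle => (q • z.1, q • z.2)) (μ.prod μ)) :
    JointErg (fun x : UnitAddCircle => p • x) (fun x : UnitAddCircle => q • x) μ := by
  intro E hE h1 h2
  have h := herg (E ×ˢ univ) (hE.prod MeasurableSet.univ) (by
    ext z
    have := Set.ext_iff.1 h1 z.1
    simpa using this) (by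
    ext z
    have := Set.ext_iff.1 h2 z.1
    simpa using this)
  rw [Measure.prod_prod, measure_univ, mul_one] at h
  exact h

/-- The deviations vanish in square mean. -/
theorem means_dev (p q : ℕ) (μ : Measure UnitAddCircle) [IsProbabilityMeasure μ]
    (hip : MeasurePreserving (fun x : UnitAddCircle => p • x) μ μ)
    (hiq : MeasurePreserving (fun x : UnitAddCircle => q • x) μ μ)
    (herg : JointErg (fun z : UnitAddCircle × UnitAddCircle => (p • z.1, p • z.2))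
      (fun z : UnitAddCircle × UnitAddCircle => (q • z.1, q • z.2)) (μ.prod μ)) (a b : ℤ) :
    Tendsto (fun K : ℕ × ℕ => (∑ i ∈ Finset.range K.1, ∑ j ∈ Finset.range K.2,
      ‖(∫ x, (fourier (a * (p : ℤ) ^ i + b * (q : ℤ) ^ j) x : ℂ) ∂μ) -
        (∫ x, (fourier a x : ℂ) ∂μ) * ∫ x, (fourier b x : ℂ) ∂μ‖ ^ 2) / ((K.1 : ℝ) * K.2)) atTop
      (𝓝 0) := by
  have h1 := means_sq p q μ hip hiq herg a b
  have h2 := means_coeff p q μ hip hiq (erg_of_prod p q μ herg) a b
  set A := (∫ x, (fourier a x : ℂ) ∂μ) * ∫ x, (fourier b x : ℂ) ∂μ with hA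
  set c : ℕ → ℕ → ℂ := fun i j => ∫ x, (fourier (a * (p : ℤ) ^ i + b * (q : ℤ) ^ j) x : ℂ) ∂μ with hc
  have h3 := (h2.const_mul ((starRingEnd ℂ) A))
  have h4 := (Complex.continuous_re.tendsto _).comp h3
  have h5 := (h1.sub (h4.const_mul 2)).add (tendsto_const_nhds (x := ‖A‖ ^ 2) (f := (atTop : Filter (ℕ × ℕ))))
  have e0 : ‖∫ x, (fourier a x : ℂ) ∂μ‖ ^ 2 * ‖∫ x, (fourier b x : ℂ) ∂μ‖ ^ 2 -
      2 * ((starRingEnd ℂ) A * A).re + ‖A‖ ^ 2 = 0 := by
    rw [← mul_pow, ← norm_mul, ← hA, mul_comm ((starRingEnd ℂ) A), Complex.mul_conj, Complex.ofReal_re,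
      Complex.normSq_eq_norm_sq]
    ring
  rw [e0] at h5
  refine h5.congr' ?_
  filter_upwards [eventually_ge_atTop ((1, 1) : ℕ × ℕ)] with K hK
  have hK1 : (0 : ℝ) < K.1 := by exact_mod_cast (by have := hK.1; simp at this; omega : 0 < K.1)
  have hK2 : (0 : ℝ) < K.2 := by exact_mod_cast (by have := hK.2; simp at this; omega : 0 < K.2)
  show (∑ i ∈ Finset.range K.1, ∑ j ∈ Finset.range K.2, ‖c i j‖ ^ 2) / ((K.1 : ℝ) * K.2) -
    2 * ((starRingEnd ℂ) A * ((∑ i ∈ Finset.range K.1, ∑ j ∈ Finset.range K.2, c i j) /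
      ((K.1 : ℂ) * K.2))).re + ‖A‖ ^ 2 =
    (∑ i ∈ Finset.range K.1, ∑ j ∈ Finset.range K.2, ‖c i j - A‖ ^ 2) / ((K.1 : ℝ) * K.2)
  have e1 : ∀ i j, ‖c i j - A‖ ^ 2 = ‖c i j‖ ^ 2 - 2 * ((starRingEnd ℂ) A * c i j).re + ‖A‖ ^ 2 := by
    intro i j
    rw [← Complex.normSq_eq_norm_sq, ← Complex.normSq_eq_norm_sq, ← Complex.normSq_eq_norm_sq,
      Complex.normSq_apply, Complex.normSq_apply, Complex.normSq_apply]
    simp only [Complex.sub_re, Complex.sub_im, Complex.mul_re, Complex.conj_re, Complex.conj_im]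
    ring
  simp_rw [e1, Finset.sum_add_distrib, Finset.sum_sub_distrib]
  have e2 : ((starRingEnd ℂ) A * ((∑ i ∈ Finset.range K.1, ∑ j ∈ Finset.range K.2, c i j) /
      ((K.1 : ℂ) * K.2))).re =
      (∑ i ∈ Finset.range K.1, ∑ j ∈ Finset.range K.2, ((starRingEnd ℂ) A * c i j).re) /
        ((K.1 : ℝ) * K.2) := by
    rw [← Complex.ofReal_natCast, ← Complex.ofReal_natCast, ← Complex.ofReal_mul, ← mul_div_assoc,
      Complex.div_ofReal_re]
    congr 1
    rw [Finset.mul_sum, Complex.re_sum]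
    refine Finset.sum_congr rfl fun i _ => ?_
    rw [Finset.mul_sum, Complex.re_sum]
  rw [e2]
  simp only [Finset.sum_const, Finset.card_range, nsmul_eq_mul, ← Finset.mul_sum]
  field_simp

/-- counting in boxes -/
noncomputable def cnt (D : Set (ℕ × ℕ)) (K : ℕ × ℕ) : ℕ :=
  {k : ℕ × ℕ | k ∈ D ∧ k.1 < K.1 ∧ k.2 < K.2}.ncard

lemma cnt_eq (D : Set (ℕ × ℕ)) (K : ℕ × ℕ) [DecidablePred (· ∈ D)] :
    (cnt D K : ℝ) = ∑ i ∈ Finset.range K.1, ∑ j ∈ Finset.range K.2, if (i, j) ∈ D then (1 : ℝ) else 0 := by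
  have h1 : {k : ℕ × ℕ | k ∈ D ∧ k.1 < K.1 ∧ k.2 < K.2} =
      (((Finset.range K.1 ×ˢ Finset.range K.2).filter (· ∈ D) : Finset (ℕ × ℕ)) : Set (ℕ × ℕ)) := by
    ext k
    simp only [mem_ofPred_eq, Finset.coe_filter, Finset.mem_product, Finset.mem_range]
    tauto
  rw [cnt, h1, Set.ncard_coe_finset, Finset.card_filter]
  push_cast
  rw [Finset.sum_product]

lemma cnt_le (D : Set (ℕ × ℕ)) (K : ℕ × ℕ) (c : ℕ → ℕ → ℂ) (A : ℂ) {C : ℝ}
    (h : ∀ i j, ‖c i j - A‖ ≤ C) (h0 : ∀ i j, (i, j) ∉ D → c i j = A) :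
    ‖(∑ i ∈ Finset.range K.1, ∑ j ∈ Finset.range K.2, c i j) - (K.1 : ℂ) * K.2 * A‖ ≤ C * cnt D K := by
  classical
  have e1 : (∑ i ∈ Finset.range K.1, ∑ j ∈ Finset.range K.2, c i j) - (K.1 : ℂ) * K.2 * A =
      ∑ i ∈ Finset.range K.1, ∑ j ∈ Finset.range K.2, (c i j - A) := by
    simp_rw [Finset.sum_sub_distrib]
    simp only [Finset.sum_const, Finset.card_range, nsmul_eq_mul]
    ring
  rw [e1, cnt_eq, Finset.mul_sum]
  refine (norm_sum_le _ _).trans (Finset.sum_le_sum fun i _ => ?_)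
  rw [Finset.mul_sum]
  refine (norm_sum_le _ _).trans (Finset.sum_le_sum fun j _ => ?_)
  by_cases hk : (i, j) ∈ D
  · rw [if_pos hk, mul_one]
    exact h i j
  · rw [if_neg hk, h0 i j hk, sub_self, norm_zero, mul_zero]

lemma cnt_ge (D : Set (ℕ × ℕ)) (K : ℕ × ℕ) (c : ℕ → ℕ → ℂ) (A B : ℂ)
    (h0 : ∀ i j, (i, j) ∈ D → c i j = B) :
    ‖B - A‖ ^ 2 * cnt D K ≤ ∑ i ∈ Finset.range K.1, ∑ j ∈ Finset.range K.2, ‖c i j - A‖ ^ 2 := by
  classical
  rw [cnt_eq, Finset.mul_sum]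
  refine Finset.sum_le_sum fun i _ => ?_
  rw [Finset.mul_sum]
  refine Finset.sum_le_sum fun j _ => ?_
  by_cases hk : (i, j) ∈ D
  · rw [if_pos hk, mul_one, h0 i j hk]
  · rw [if_neg hk, mul_zero]
    exact sq_nonneg _

lemma coeff_map (μ : Measure UnitAddCircle) (m n : ℤ) :
    ∫ x, (fourier n x : ℂ) ∂(μ.map fun x : UnitAddCircle => m • x) = ∫ x, (fourier (n * m) x : ℂ) ∂μ := by
  rw [integral_map (continuous_zsmul m).measurable.aemeasurable
    (fourier n).continuous.aestronglyMeasurable]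
  refine integral_congr_ae (Eventually.of_forall fun x => ?_)
  show (fourier n (m • x) : ℂ) = _
  rw [fourier_apply, fourier_apply, mul_smul]

lemma norm_coeff_le (μ : Measure UnitAddCircle) [IsProbabilityMeasure μ] (n : ℤ) :
    ‖∫ x, (fourier n x : ℂ) ∂μ‖ ≤ 1 := by
  have := norm_integral_le_of_norm_le_const (μ := μ) (f := fun x => (fourier n x : ℂ)) (C := 1)
    (Eventually.of_forall fun x => (norm_fourier n x).le)
  rw [probReal_univ, mul_one] at this
  exact this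

/-- identification of the common image, ergodic case -/
theorem image_erg (p q : ℕ) (μ : Measure UnitAddCircle) [IsProbabilityMeasure μ]
    (hip : MeasurePreserving (fun x : UnitAddCircle => p • x) μ μ)
    (hiq : MeasurePreserving (fun x : UnitAddCircle => q • x) μ μ)
    (herg : JointErg (fun x : UnitAddCircle => p • x) (fun x : UnitAddCircle => q • x) μ) (a b : ℤ)
    (ν : Measure UnitAddCircle) [IsProbabilityMeasure ν]
    (hν : ∀ δ : ℝ, 0 < δ → ∃ᶠ K : ℕ × ℕ in atTop,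
      (cnt {k | μ.map (fun x : UnitAddCircle => (a * (p : ℤ) ^ k.1 + b * (q : ℤ) ^ k.2) • x) ≠ ν} K : ℝ) ≤
        δ * (K.1 * K.2)) (n : ℤ) :
    ∫ x, (fourier n x : ℂ) ∂ν = (∫ x, (fourier (a * n) x : ℂ) ∂μ) * ∫ x, (fourier (b * n) x : ℂ) ∂μ := by
  have h := means_coeff p q μ hip hiq herg (a * n) (b * n)
  set A := (∫ x, (fourier (a * n) x : ℂ) ∂μ) * ∫ x, (fourier (b * n) x : ℂ) ∂μ with hA
  set B := ∫ x, (fourier n x : ℂ) ∂ν with hB
  set c : ℕ → ℕ → ℂ := fun i j => ∫ x, (fourier (a * n * (p : ℤ) ^ i + b * n * (q : ℤ) ^ j) x : ℂ) ∂μ with hc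
  set D : Set (ℕ × ℕ) := {k | μ.map (fun x : UnitAddCircle =>
    (a * (p : ℤ) ^ k.1 + b * (q : ℤ) ^ k.2) • x) ≠ ν} with hD
  have h0 : ∀ i j, (i, j) ∉ D → c i j = B := by
    intro i j hij
    have h1 : μ.map (fun x : UnitAddCircle => (a * (p : ℤ) ^ i + b * (q : ℤ) ^ j) • x) = ν :=
      not_not.1 hij
    rw [hB, ← h1, coeff_map, hc]
    show ∫ x, (fourier (a * n * (p : ℤ) ^ i + b * n * (q : ℤ) ^ j) x : ℂ) ∂μ = _
    rw [show a * n * (p : ℤ) ^ i + b * n * (q : ℤ) ^ j = n * (a * (p : ℤ) ^ i + b * (q : ℤ) ^ j) by ring]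
  have h1 : ∀ i j, ‖c i j - B‖ ≤ 2 := by
    intro i j
    refine (norm_sub_le _ _).trans ?_
    have := norm_coeff_le μ (a * n * (p : ℤ) ^ i + b * n * (q : ℤ) ^ j)
    have := norm_coeff_le ν n
    linarith
  by_contra hne
  have hpos : 0 < ‖B - A‖ := norm_pos_iff.2 (sub_ne_zero.2 hne)
  have hev := (Metric.tendsto_nhds.1 h) (‖B - A‖ / 4) (by positivity)
  obtain ⟨K, hK, hKD, hK1⟩ := ((hν (‖B - A‖ / 8) (by positivity)).and_eventually
    (hev.and (eventually_ge_atTop ((1, 1) : ℕ × ℕ)))).exists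
  have hK1' : (0 : ℝ) < K.1 := by exact_mod_cast (by have := hK1.1; simp at this; omega : 0 < K.1)
  have hK2' : (0 : ℝ) < K.2 := by exact_mod_cast (by have := hK1.2; simp at this; omega : 0 < K.2)
  have hKK : (0 : ℝ) < (K.1 : ℝ) * K.2 := by positivity
  have h2 := cnt_le D K c B h1 h0
  have hnK : ‖((K.1 : ℂ) * K.2)‖ = (K.1 : ℝ) * K.2 := by
    rw [norm_mul, Complex.norm_natCast, Complex.norm_natCast]
  have hK0 : ((K.1 : ℂ) * K.2) ≠ 0 := by
    rw [← norm_pos_iff, hnK]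
    exact hKK
  have h3 : ‖(∑ i ∈ Finset.range K.1, ∑ j ∈ Finset.range K.2, c i j) / ((K.1 : ℂ) * K.2) - B‖ ≤
      ‖B - A‖ / 4 := by
    have e1 : (∑ i ∈ Finset.range K.1, ∑ j ∈ Finset.range K.2, c i j) / ((K.1 : ℂ) * K.2) - B =
        ((∑ i ∈ Finset.range K.1, ∑ j ∈ Finset.range K.2, c i j) - (K.1 : ℂ) * K.2 * B) /
          ((K.1 : ℂ) * K.2) := by
      rw [sub_div, mul_div_cancel_left₀ _ hK0]
    rw [e1, norm_div, hnK, div_le_iff₀ hKK]
    refine h2.trans ?_
    have : (2 : ℝ) * (cnt D K : ℝ) ≤ 2 * (‖B - A‖ / 8 * (K.1 * K.2)) :=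
      mul_le_mul_of_nonneg_left hK zero_le_two
    linarith
  have h4 : ‖(∑ i ∈ Finset.range K.1, ∑ j ∈ Finset.range K.2, c i j) / ((K.1 : ℂ) * K.2) - A‖ <
      ‖B - A‖ / 4 := by
    rw [← dist_eq_norm]
    exact hKD
  have h5 : ‖B - A‖ ≤ ‖(∑ i ∈ Finset.range K.1, ∑ j ∈ Finset.range K.2, c i j) / ((K.1 : ℂ) * K.2) - A‖ +
      ‖(∑ i ∈ Finset.range K.1, ∑ j ∈ Finset.range K.2, c i j) / ((K.1 : ℂ) * K.2) - B‖ := by
    have := norm_sub_le
      ((∑ i ∈ Finset.range K.1, ∑ j ∈ Finset.range K.2, c i j) / ((K.1 : ℂ) * K.2) - A)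
      ((∑ i ∈ Finset.range K.1, ∑ j ∈ Finset.range K.2, c i j) / ((K.1 : ℂ) * K.2) - B)
    rwa [sub_sub_sub_cancel_left] at this
  linarith

/-- identification of the common image, weakly mixing case -/
theorem image_mix (p q : ℕ) (μ : Measure UnitAddCircle) [IsProbabilityMeasure μ]
    (hip : MeasurePreserving (fun x : UnitAddCircle => p • x) μ μ)
    (hiq : MeasurePreserving (fun x : UnitAddCircle => q • x) μ μ)
    (herg : JointErg (fun z : UnitAddCircle × UnitAddCircle => (p • z.1, p • z.2))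
      (fun z : UnitAddCircle × UnitAddCircle => (q • z.1, q • z.2)) (μ.prod μ)) (a b : ℤ)
    (ν : Measure UnitAddCircle) [IsProbabilityMeasure ν]
    (hν : ∃ δ : ℝ, 0 < δ ∧ ∃ᶠ K : ℕ × ℕ in atTop,
      δ * (K.1 * K.2) ≤ (cnt {k | μ.map (fun x : UnitAddCircle =>
        (a * (p : ℤ) ^ k.1 + b * (q : ℤ) ^ k.2) • x) = ν} K : ℝ)) (n : ℤ) :
    ∫ x, (fourier n x : ℂ) ∂ν = (∫ x, (fourier (a * n) x : ℂ) ∂μ) * ∫ x, (fourier (b * n) x : ℂ) ∂μ := by
  have h := means_dev p q μ hip hiq herg (a * n) (b * n)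
  set A := (∫ x, (fourier (a * n) x : ℂ) ∂μ) * ∫ x, (fourier (b * n) x : ℂ) ∂μ with hA
  set B := ∫ x, (fourier n x : ℂ) ∂ν with hB
  set c : ℕ → ℕ → ℂ := fun i j => ∫ x, (fourier (a * n * (p : ℤ) ^ i + b * n * (q : ℤ) ^ j) x : ℂ) ∂μ with hc
  set D : Set (ℕ × ℕ) := {k | μ.map (fun x : UnitAddCircle =>
    (a * (p : ℤ) ^ k.1 + b * (q : ℤ) ^ k.2) • x) = ν} with hD
  have h0 : ∀ i j, (i, j) ∈ D → c i j = B := by
    intro i j hij
    have h1 : μ.map (fun x : UnitAddCircle => (a * (p : ℤ) ^ i + b * (q : ℤ) ^ j) • x) = ν := hij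
    rw [hB, ← h1, coeff_map, hc]
    show ∫ x, (fourier (a * n * (p : ℤ) ^ i + b * n * (q : ℤ) ^ j) x : ℂ) ∂μ = _
    rw [show a * n * (p : ℤ) ^ i + b * n * (q : ℤ) ^ j = n * (a * (p : ℤ) ^ i + b * (q : ℤ) ^ j) by ring]
  obtain ⟨δ, hδ, hfr⟩ := hν
  by_contra hne
  have hpos : 0 < ‖B - A‖ := norm_pos_iff.2 (sub_ne_zero.2 hne)
  have hev := h.eventually (gt_mem_nhds (show (0 : ℝ) < ‖B - A‖ ^ 2 * δ by positivity))
  obtain ⟨K, hK, hKD, hK1⟩ := (hfr.and_eventually
    (hev.and (eventually_ge_atTop ((1, 1) : ℕ × ℕ)))).exists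
  have hK1' : (0 : ℝ) < K.1 := by exact_mod_cast (by have := hK1.1; simp at this; omega : 0 < K.1)
  have hK2' : (0 : ℝ) < K.2 := by exact_mod_cast (by have := hK1.2; simp at this; omega : 0 < K.2)
  have hKK : (0 : ℝ) < (K.1 : ℝ) * K.2 := by positivity
  have h2 := cnt_ge D K c A B h0
  rw [div_lt_iff₀ hKK] at hKD
  have h3 : ‖B - A‖ ^ 2 * (δ * (K.1 * K.2)) ≤ ‖B - A‖ ^ 2 * cnt D K :=
    mul_le_mul_of_nonneg_left hK (by positivity)
  have h4 : ∑ i ∈ Finset.range K.1, ∑ j ∈ Finset.range K.2, ‖c i j - A‖ ^ 2 <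
      ‖B - A‖ ^ 2 * δ * (K.1 * K.2) := hKD
  linarith

lemma vol_fourier {n : ℤ} (hn : n ≠ 0) : ∫ x, (fourier n x : ℂ) ∂(volume : Measure UnitAddCircle) = 0 := by
  refine Pool.Agent.R202.coeff_zero (θ := Real.sqrt 2) irrational_sqrt_two ?_ hn
  exact (measurePreserving_add_right volume _).map_eq

lemma rigid_of_idem (μ : Measure UnitAddCircle) [IsProbabilityMeasure μ] (hna : ∀ x, μ {x} = 0)
    (h : ∀ n : ℤ, ∫ x, (fourier n x : ℂ) ∂μ =
      (∫ x, (fourier (1 * n) x : ℂ) ∂μ) * ∫ x, (fourier (1 * n) x : ℂ) ∂μ) : μ = volume := by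
  refine Pool.Agent.R202.ext_fourier fun n => ?_
  by_cases hn : n = 0
  · subst hn
    have h0 : (volume : Measure UnitAddCircle) univ = 1 := UnitAddCircle.measure_univ
    simp [measureReal_def, h0]
  · rw [vol_fourier hn]
    have h1 := h n
    rw [one_mul] at h1
    have h2 := coeff_ne_one μ hna hn
    have h3 : (∫ x, (fourier n x : ℂ) ∂μ) * (1 - ∫ x, (fourier n x : ℂ) ∂μ) = 0 := by
      rw [mul_sub, mul_one, ← h1, sub_self]
    rcases mul_eq_zero.1 h3 with h4 | h4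
    · exact h4
    · exact absurd (sub_eq_zero.1 h4).symm h2

end Pool.Agent.R202.STP
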